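import Pool.Agent.Lib.H69.Hopf.Defs

open Equiv Finset

namespace Pool.Agent.H69Hopf

/-- Mixed form of the Gauss–Bonnet–Chern integrand. -/
noncomputable def mgb {m : ℕ} (T : Fin m → Arr (2 * m)) : ℝ :=
  ∑ σ : Perm (Fin (2 * m)), ∑ τ : Perm (Fin (2 * m)),
    ((Perm.sign σ : ℤ) : ℝ) * ((Perm.sign τ : ℤ) : ℝ) *
      ∏ i : Fin m, T i (σ (fst i)) (σ (snd i)) (τ (fst i)) (τ (snd i))

theorem gaussBonnet_eq_mgb (n : ℕ) (R : Arr (2 * n)) : gaussBonnet n R = mgb (fun _ => R) := rfl

theorem fst_inj {n : ℕ} {i j : Fin n} : fst i = fst j ↔ i = j := by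
  constructor
  · intro h
    have := congrArg Fin.val h
    simp only [fst] at this
    exact Fin.ext (by omega)
  · rintro rfl; rfl

theorem snd_inj {n : ℕ} {i j : Fin n} : snd i = snd j ↔ i = j := by
  constructor
  · intro h
    have := congrArg Fin.val h
    simp only [snd] at this
    exact Fin.ext (by omega)
  · rintro rfl; rfl

theorem fst_ne_snd {n : ℕ} (i j : Fin n) : fst i ≠ snd j := by
  intro h
  have := congrArg Fin.val h
  simp only [fst, snd] at this
  omega

theorem exists_fst_or_snd {n : ℕ} (r : Fin (2 * n)) : ∃ i : Fin n, r = fst i ∨ r = snd i := by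
  refine ⟨⟨r.1 / 2, by omega⟩, ?_⟩
  rcases Nat.even_or_odd' r.1 with ⟨k, hk | hk⟩
  · left
    apply Fin.ext
    simp only [fst]
    omega
  · right
    apply Fin.ext
    simp only [snd]
    omega

section ev

variable {N : ℕ} (R : Arr N)

theorem ev_add1 (x x' y z w : Fin N → ℝ) : ev R (x + x') y z w = ev R x y z w + ev R x' y z w := by
  simp only [ev, Pi.add_apply, ← Finset.sum_add_distrib]
  refine Finset.sum_congr rfl fun i _ => Finset.sum_congr rfl fun j _ =>
    Finset.sum_congr rfl fun k _ => Finset.sum_congr rfl fun l _ => ?_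
  ring

theorem ev_add2 (x y y' z w : Fin N → ℝ) : ev R x (y + y') z w = ev R x y z w + ev R x y' z w := by
  simp only [ev, Pi.add_apply, ← Finset.sum_add_distrib]
  refine Finset.sum_congr rfl fun i _ => Finset.sum_congr rfl fun j _ =>
    Finset.sum_congr rfl fun k _ => Finset.sum_congr rfl fun l _ => ?_
  ring

theorem ev_add3 (x y z z' w : Fin N → ℝ) : ev R x y (z + z') w = ev R x y z w + ev R x y z' w := by
  simp only [ev, Pi.add_apply, ← Finset.sum_add_distrib]
  refine Finset.sum_congr rfl fun i _ => Finset.sum_congr rfl fun j _ =>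
    Finset.sum_congr rfl fun k _ => Finset.sum_congr rfl fun l _ => ?_
  ring

theorem ev_add4 (x y z w w' : Fin N → ℝ) : ev R x y z (w + w') = ev R x y z w + ev R x y z w' := by
  simp only [ev, Pi.add_apply, ← Finset.sum_add_distrib]
  refine Finset.sum_congr rfl fun i _ => Finset.sum_congr rfl fun j _ =>
    Finset.sum_congr rfl fun k _ => Finset.sum_congr rfl fun l _ => ?_
  ring

theorem ev_smul1 (c : ℝ) (x y z w : Fin N → ℝ) : ev R (c • x) y z w = c * ev R x y z w := by
  simp only [ev, Pi.smul_apply, smul_eq_mul, Finset.mul_sum]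
  refine Finset.sum_congr rfl fun i _ => Finset.sum_congr rfl fun j _ =>
    Finset.sum_congr rfl fun k _ => Finset.sum_congr rfl fun l _ => ?_
  ring

theorem ev_smul2 (c : ℝ) (x y z w : Fin N → ℝ) : ev R x (c • y) z w = c * ev R x y z w := by
  simp only [ev, Pi.smul_apply, smul_eq_mul, Finset.mul_sum]
  refine Finset.sum_congr rfl fun i _ => Finset.sum_congr rfl fun j _ =>
    Finset.sum_congr rfl fun k _ => Finset.sum_congr rfl fun l _ => ?_
  ring

theorem ev_smul3 (c : ℝ) (x y z w : Fin N → ℝ) : ev R x y (c • z) w = c * ev R x y z w := by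
  simp only [ev, Pi.smul_apply, smul_eq_mul, Finset.mul_sum]
  refine Finset.sum_congr rfl fun i _ => Finset.sum_congr rfl fun j _ =>
    Finset.sum_congr rfl fun k _ => Finset.sum_congr rfl fun l _ => ?_
  ring

theorem ev_smul4 (c : ℝ) (x y z w : Fin N → ℝ) : ev R x y z (c • w) = c * ev R x y z w := by
  simp only [ev, Pi.smul_apply, smul_eq_mul, Finset.mul_sum]
  refine Finset.sum_congr rfl fun i _ => Finset.sum_congr rfl fun j _ =>
    Finset.sum_congr rfl fun k _ => Finset.sum_congr rfl fun l _ => ?_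
  ring

theorem ev_single (i j k l : Fin N) :
    ev R (Pi.single i 1) (Pi.single j 1) (Pi.single k 1) (Pi.single l 1) = R i j k l := by
  simp only [ev]
  rw [Finset.sum_eq_single i, Finset.sum_eq_single j, Finset.sum_eq_single k,
    Finset.sum_eq_single l]
  · simp
  · intro b _ hb; simp [Pi.single_apply, hb]
  · simp
  · intro b _ hb; simp [Pi.single_apply, hb]
  · simp
  · intro b _ hb; simp [Pi.single_apply, hb]
  · simp
  · intro b _ hb; simp [Pi.single_apply, hb]
  · simp

end ev

/-- Product of the values on frames. -/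
noncomputable def phi {m N : ℕ} (T : Fin m → Arr N) (a b : Fin (2 * m) → (Fin N → ℝ)) : ℝ :=
  ∏ i : Fin m, ev (T i) (a (fst i)) (a (snd i)) (b (fst i)) (b (snd i))

theorem phi_split {m N : ℕ} (T : Fin m → Arr N) (a b : Fin (2 * m) → (Fin N → ℝ)) (i : Fin m) :
    phi T a b = ev (T i) (a (fst i)) (a (snd i)) (b (fst i)) (b (snd i)) *
      ∏ j ∈ Finset.univ.erase i, ev (T j) (a (fst j)) (a (snd j)) (b (fst j)) (b (snd j)) := by
  unfold phi
  rw [Finset.mul_prod_erase Finset.univ
    (fun j => ev (T j) (a (fst j)) (a (snd j)) (b (fst j)) (b (snd j))) (Finset.mem_univ i)]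

theorem rest_update_fst {m N : ℕ} [DecidableEq (Fin (2 * m))] (T : Fin m → Arr N)
    (a b : Fin (2 * m) → (Fin N → ℝ)) (i : Fin m) (x : Fin N → ℝ) (r : Fin (2 * m))
    (hr : r = fst i ∨ r = snd i) :
    (∏ j ∈ Finset.univ.erase i, ev (T j) (Function.update a r x (fst j))
      (Function.update a r x (snd j)) (b (fst j)) (b (snd j))) =
    ∏ j ∈ Finset.univ.erase i, ev (T j) (a (fst j)) (a (snd j)) (b (fst j)) (b (snd j)) := by
  refine Finset.prod_congr rfl fun j hj => ?_
  have hji : j ≠ i := Finset.ne_of_mem_erase hj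
  have h1 : fst j ≠ r := by
    rcases hr with rfl | rfl
    · exact fun h => hji (fst_inj.1 h)
    · exact fst_ne_snd j i
  have h2 : snd j ≠ r := by
    rcases hr with rfl | rfl
    · exact fun h => fst_ne_snd i j h.symm
    · exact fun h => hji (snd_inj.1 h)
  rw [Function.update_of_ne h1, Function.update_of_ne h2]

theorem rest_update_snd {m N : ℕ} [DecidableEq (Fin (2 * m))] (T : Fin m → Arr N)
    (a b : Fin (2 * m) → (Fin N → ℝ)) (i : Fin m) (x : Fin N → ℝ) (r : Fin (2 * m))
    (hr : r = fst i ∨ r = snd i) :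
    (∏ j ∈ Finset.univ.erase i, ev (T j) (a (fst j)) (a (snd j)) (Function.update b r x (fst j))
      (Function.update b r x (snd j))) =
    ∏ j ∈ Finset.univ.erase i, ev (T j) (a (fst j)) (a (snd j)) (b (fst j)) (b (snd j)) := by
  refine Finset.prod_congr rfl fun j hj => ?_
  have hji : j ≠ i := Finset.ne_of_mem_erase hj
  have h1 : fst j ≠ r := by
    rcases hr with rfl | rfl
    · exact fun h => hji (fst_inj.1 h)
    · exact fst_ne_snd j i
  have h2 : snd j ≠ r := by
    rcases hr with rfl | rfl
    · exact fun h => fst_ne_snd i j h.symm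
    · exact fun h => hji (snd_inj.1 h)
  rw [Function.update_of_ne h1, Function.update_of_ne h2]

/-- `phi` as a multilinear map in the first frame. -/
noncomputable def phi1 {m N : ℕ} (T : Fin m → Arr N) (b : Fin (2 * m) → (Fin N → ℝ)) :
    MultilinearMap ℝ (fun _ : Fin (2 * m) => (Fin N → ℝ)) ℝ where
  toFun a := phi T a b
  map_update_add' := by
    intro inst a r x y
    obtain ⟨i, hi⟩ := exists_fst_or_snd r
    rw [phi_split _ _ _ i, phi_split _ _ _ i, phi_split _ _ _ i, rest_update_fst T a b i _ r hi,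
      rest_update_fst T a b i _ r hi, rest_update_fst T a b i _ r hi, ← add_mul]
    congr 1
    rcases hi with rfl | rfl
    · have h := (fst_ne_snd i i).symm
      rw [Function.update_self, Function.update_self, Function.update_self,
        Function.update_of_ne h, Function.update_of_ne h, Function.update_of_ne h, ev_add1]
    · have h := fst_ne_snd i i
      rw [Function.update_self, Function.update_self, Function.update_self,
        Function.update_of_ne h, Function.update_of_ne h, Function.update_of_ne h, ev_add2]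
  map_update_smul' := by
    intro inst a r c x
    obtain ⟨i, hi⟩ := exists_fst_or_snd r
    rw [phi_split _ _ _ i, phi_split _ _ _ i, rest_update_fst T a b i _ r hi,
      rest_update_fst T a b i _ r hi, smul_eq_mul, ← mul_assoc]
    congr 1
    rcases hi with rfl | rfl
    · have h := (fst_ne_snd i i).symm
      rw [Function.update_self, Function.update_self,
        Function.update_of_ne h, Function.update_of_ne h, ev_smul1]
    · have h := fst_ne_snd i i
      rw [Function.update_self, Function.update_self,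
        Function.update_of_ne h, Function.update_of_ne h, ev_smul2]

/-- `phi` as a multilinear map in the second frame. -/
noncomputable def phi2 {m N : ℕ} (T : Fin m → Arr N) (a : Fin (2 * m) → (Fin N → ℝ)) :
    MultilinearMap ℝ (fun _ : Fin (2 * m) => (Fin N → ℝ)) ℝ where
  toFun b := phi T a b
  map_update_add' := by
    intro inst b r x y
    obtain ⟨i, hi⟩ := exists_fst_or_snd r
    rw [phi_split _ _ _ i, phi_split _ _ _ i, phi_split _ _ _ i, rest_update_snd T a b i _ r hi,
      rest_update_snd T a b i _ r hi, rest_update_snd T a b i _ r hi, ← add_mul]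
    congr 1
    rcases hi with rfl | rfl
    · have h := (fst_ne_snd i i).symm
      rw [Function.update_self, Function.update_self, Function.update_self,
        Function.update_of_ne h, Function.update_of_ne h, Function.update_of_ne h, ev_add3]
    · have h := fst_ne_snd i i
      rw [Function.update_self, Function.update_self, Function.update_self,
        Function.update_of_ne h, Function.update_of_ne h, Function.update_of_ne h, ev_add4]
  map_update_smul' := by
    intro inst b r c x
    obtain ⟨i, hi⟩ := exists_fst_or_snd r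
    rw [phi_split _ _ _ i, phi_split _ _ _ i, rest_update_snd T a b i _ r hi,
      rest_update_snd T a b i _ r hi, smul_eq_mul, ← mul_assoc]
    congr 1
    rcases hi with rfl | rfl
    · have h := (fst_ne_snd i i).symm
      rw [Function.update_self, Function.update_self,
        Function.update_of_ne h, Function.update_of_ne h, ev_smul3]
    · have h := fst_ne_snd i i
      rw [Function.update_self, Function.update_self,
        Function.update_of_ne h, Function.update_of_ne h, ev_smul4]

/-- Universal property of the determinant, for alternating sums of a multilinear map. -/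
theorem alt_det {N : ℕ} (M : MultilinearMap ℝ (fun _ : Fin N => (Fin N → ℝ)) ℝ)
    (g : Fin N → (Fin N → ℝ)) :
    ∑ σ : Perm (Fin N), ((Perm.sign σ : ℤ) : ℝ) * M (fun i => g (σ i)) =
      Matrix.det (Matrix.of g) *
        ∑ σ : Perm (Fin N), ((Perm.sign σ : ℤ) : ℝ) * M (fun i => Pi.single (σ i) 1) := by
  have key : ∀ v : Fin N → (Fin N → ℝ), MultilinearMap.alternatization M v =
      ∑ σ : Perm (Fin N), ((Perm.sign σ : ℤ) : ℝ) * M (fun i => v (σ i)) := by
    intro v
    rw [MultilinearMap.alternatization_apply]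
    refine Finset.sum_congr rfl fun σ _ => ?_
    rw [MultilinearMap.domDomCongr_apply, Units.smul_def, zsmul_eq_mul]
  have h := AlternatingMap.eq_smul_basis_det (Pi.basisFun ℝ (Fin N))
    (MultilinearMap.alternatization M)
  have h2 := congrArg (fun f => f g) h
  simp only [AlternatingMap.smul_apply, Pi.basisFun_det, smul_eq_mul] at h2
  rw [key, key] at h2
  rw [h2, mul_comm]
  congr 1
  refine Finset.sum_congr rfl fun σ _ => ?_
  simp only [Pi.basisFun_apply]

/-- Pulling back an array along a frame. -/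
noncomputable def pull {M N : ℕ} (v : Fin M → (Fin N → ℝ)) (R : Arr N) : Arr M :=
  fun i j k l => ev R (v i) (v j) (v k) (v l)

theorem mgb_pull_eq {m N : ℕ} (T : Fin m → Arr N) (g : Fin (2 * m) → (Fin N → ℝ)) :
    mgb (fun i => pull g (T i)) = ∑ σ : Perm (Fin (2 * m)), ∑ τ : Perm (Fin (2 * m)),
      ((Perm.sign σ : ℤ) : ℝ) * ((Perm.sign τ : ℤ) : ℝ) *
        phi T (fun i => g (σ i)) (fun i => g (τ i)) := rfl

theorem mgb_eq_phi {m : ℕ} (T : Fin m → Arr (2 * m)) :
    mgb T = ∑ σ : Perm (Fin (2 * m)), ∑ τ : Perm (Fin (2 * m)),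
      ((Perm.sign σ : ℤ) : ℝ) * ((Perm.sign τ : ℤ) : ℝ) *
        phi T (fun i => Pi.single (σ i) 1) (fun i => Pi.single (τ i) 1) := by
  unfold mgb phi
  refine Finset.sum_congr rfl fun σ _ => Finset.sum_congr rfl fun τ _ => ?_
  simp only [ev_single]

/-- Invariance of the mixed Gauss–Bonnet form. -/
theorem mgb_pull {m : ℕ} (T : Fin m → Arr (2 * m)) (g : Fin (2 * m) → (Fin (2 * m) → ℝ)) :
    mgb (fun i => pull g (T i)) = Matrix.det (Matrix.of g) ^ 2 * mgb T := by
  rw [mgb_pull_eq, mgb_eq_phi]
  have h1 : ∀ b : Fin (2 * m) → (Fin (2 * m) → ℝ),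
      ∑ σ : Perm (Fin (2 * m)), ((Perm.sign σ : ℤ) : ℝ) * phi T (fun i => g (σ i)) b =
      Matrix.det (Matrix.of g) * ∑ σ : Perm (Fin (2 * m)),
        ((Perm.sign σ : ℤ) : ℝ) * phi T (fun i => Pi.single (σ i) 1) b :=
    fun b => alt_det (phi1 T b) g
  have h2 : ∀ a : Fin (2 * m) → (Fin (2 * m) → ℝ),
      ∑ τ : Perm (Fin (2 * m)), ((Perm.sign τ : ℤ) : ℝ) * phi T a (fun i => g (τ i)) =
      Matrix.det (Matrix.of g) * ∑ τ : Perm (Fin (2 * m)),
        ((Perm.sign τ : ℤ) : ℝ) * phi T a (fun i => Pi.single (τ i) 1) :=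
    fun a => alt_det (phi2 T a) g
  calc ∑ σ : Perm (Fin (2 * m)), ∑ τ : Perm (Fin (2 * m)),
      ((Perm.sign σ : ℤ) : ℝ) * ((Perm.sign τ : ℤ) : ℝ) *
        phi T (fun i => g (σ i)) (fun i => g (τ i))
      = ∑ τ : Perm (Fin (2 * m)), ((Perm.sign τ : ℤ) : ℝ) * ∑ σ : Perm (Fin (2 * m)),
          ((Perm.sign σ : ℤ) : ℝ) * phi T (fun i => g (σ i)) (fun i => g (τ i)) := by
        rw [Finset.sum_comm]
        refine Finset.sum_congr rfl fun τ _ => ?_
        rw [Finset.mul_sum]
        refine Finset.sum_congr rfl fun σ _ => ?_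
        ring
    _ = ∑ τ : Perm (Fin (2 * m)), ((Perm.sign τ : ℤ) : ℝ) * (Matrix.det (Matrix.of g) *
          ∑ σ : Perm (Fin (2 * m)), ((Perm.sign σ : ℤ) : ℝ) *
            phi T (fun i => Pi.single (σ i) 1) (fun i => g (τ i))) := by
        refine Finset.sum_congr rfl fun τ _ => ?_
        rw [h1]
    _ = Matrix.det (Matrix.of g) * ∑ σ : Perm (Fin (2 * m)), ((Perm.sign σ : ℤ) : ℝ) *
          ∑ τ : Perm (Fin (2 * m)), ((Perm.sign τ : ℤ) : ℝ) *
            phi T (fun i => Pi.single (σ i) 1) (fun i => g (τ i)) := by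
        simp only [Finset.mul_sum]
        rw [Finset.sum_comm]
        refine Finset.sum_congr rfl fun σ _ => Finset.sum_congr rfl fun τ _ => ?_
        ring
    _ = Matrix.det (Matrix.of g) * ∑ σ : Perm (Fin (2 * m)), ((Perm.sign σ : ℤ) : ℝ) *
          (Matrix.det (Matrix.of g) * ∑ τ : Perm (Fin (2 * m)), ((Perm.sign τ : ℤ) : ℝ) *
            phi T (fun i => Pi.single (σ i) 1) (fun i => Pi.single (τ i) 1)) := by
        congr 1
        refine Finset.sum_congr rfl fun σ _ => ?_
        rw [h2]
    _ = Matrix.det (Matrix.of g) ^ 2 * ∑ σ : Perm (Fin (2 * m)), ∑ τ : Perm (Fin (2 * m)),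
          ((Perm.sign σ : ℤ) : ℝ) * ((Perm.sign τ : ℤ) : ℝ) *
            phi T (fun i => Pi.single (σ i) 1) (fun i => Pi.single (τ i) 1) := by
        simp only [Finset.mul_sum]
        refine Finset.sum_congr rfl fun σ _ => Finset.sum_congr rfl fun τ _ => ?_
        ring

end Pool.Agent.H69Hopf
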