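import Pool.Agent.Lib.H69.Hopf.Rec

open Equiv Finset

namespace Pool.Agent.H69Hopf

/-- The family of solutions of the recursion. -/
noncomputable def dlc (c : ℝ) (n : ℕ) : ℝ := 1 - 3 * n / ((n : ℝ) ^ 2 + 3 * n - c)

theorem pinch_family (c : ℝ) (hc : 0 ≤ c) (n0 : ℕ) (hn0 : 1 ≤ n0)
    (hpos : 0 < (n0 : ℝ) ^ 2 + 3 * n0 - c)
    (H : ∀ k, k ≤ n0 → PinchT k (dlc c n0)) :
    ∀ n, n0 ≤ n → ∀ k, k ≤ n → PinchT k (dlc c n) := by
  intro n hn
  induction n, hn using Nat.le_induction with
  | base => exact H
  | succ n hn ih =>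
    have hn1 : (1 : ℝ) ≤ n := by exact_mod_cast le_trans hn0 hn
    have hnn : (n0 : ℝ) ≤ n := by exact_mod_cast hn
    have hn01 : (1 : ℝ) ≤ n0 := by exact_mod_cast hn0
    set D : ℝ := (n : ℝ) ^ 2 + 3 * n - c with hD
    have hDpos : 0 < D := by
      rw [hD]
      nlinarith
    have hD' : ((n + 1 : ℕ) : ℝ) ^ 2 + 3 * ((n + 1 : ℕ) : ℝ) - c = D + (2 * n + 4) := by
      rw [hD]
      push_cast
      ring
    have hD'pos : 0 < D + (2 * n + 4) := by linarith
    have hy : 1 - dlc c n = 3 * n / D := by
      unfold dlc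
      ring
    have hy' : 1 - dlc c (n + 1) = 3 * (n + 1) / (D + (2 * n + 4)) := by
      unfold dlc
      rw [hD']
      push_cast
      ring
    have hmono : dlc c n ≤ dlc c (n + 1) := by
      have h1 : 1 - dlc c (n + 1) ≤ 1 - dlc c n := by
        rw [hy, hy', div_le_div_iff₀ hD'pos hDpos]
        have : D ≤ n * (2 * n + 4) := by
          rw [hD]
          nlinarith
        nlinarith
      linarith
    intro k hk
    rcases Nat.lt_or_ge k (n + 1) with h | h
    · exact (ih k (by omega)).mono hmono
    · have hk' : k = n + 1 := by omega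
      subst hk'
      refine PinchT.succ ih ?_ hmono ?_ ?_
      · have : 0 < 1 - dlc c n := by
          rw [hy]
          positivity
        linarith
      · have : 0 ≤ 1 - dlc c (n + 1) := by
          rw [hy']
          positivity
        linarith
      · rw [hy, hy']
        have h2 : 3 * (n : ℝ) + (2 * n + 4) * (3 * n / D) = 3 * n * (D + (2 * n + 4)) / D := by
          field_simp
        rw [h2]
        apply le_of_eq
        field_simp

/-- The integrand of the curvature tensor of the unit sphere is positive. -/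
theorem gb_idA_pos (m : ℕ) : 0 < mgb (fun _ : Fin m => idA (2 * m)) := by
  induction m with
  | zero =>
    have : mgb (fun _ : Fin 0 => idA (2 * 0)) = 1 := by
      unfold mgb
      simp
    rw [this]
    exact one_pos
  | succ m ih =>
    have h2 : ((fun _ => idA (2 * (m + 1))) : Fin (m + 1) → Arr (2 * (m + 1))) =
        Fin.cons (α := fun _ => Arr (2 * (m + 1))) (idA (2 * m + 1 + 1))
          (fun _ => idA (2 * m + 1 + 1)) := by
      funext i
      refine Fin.cases ?_ (fun i => ?_) i
      · rw [Fin.cons_zero]; rfl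
      · rw [Fin.cons_succ]; rfl
    rw [h2]
    refine lt_of_lt_of_eq ?_ (mgb_cons _ _).symm
    rw [consM_idA]
    have hev : ∀ a b : Fin (2 * m + 1 + 1),
        cof (fun _ : Fin m => idA (2 * m + 1 + 1)) a b a b =
          area2 (Pi.single a 1 : Fin (2 * m + 1 + 1) → ℝ) (Pi.single b 1) *
            mgb (fun _ : Fin m => idA (2 * m)) := by
      intro a b
      obtain ⟨v, hv, he⟩ := ev_cof (fun _ : Fin m => idA (2 * m + 1 + 1))
        (Pi.single a 1) (Pi.single b 1)
      rw [ev_single] at he
      rw [he]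
      congr 2
      funext i
      exact pull_idA hv
    have hnn : ∀ a b : Fin (2 * m + 1 + 1), 0 ≤ cof (fun _ : Fin m => idA (2 * m + 1 + 1)) a b a b := by
      intro a b
      rw [hev]
      exact mul_nonneg (area2_nonneg _ _) ih.le
    have h01 : 0 < cof (fun _ : Fin m => idA (2 * m + 1 + 1)) 0 1 0 1 := by
      rw [hev]
      refine mul_pos ?_ ih
      have ho := ONF_std (2 * m + 1 + 1)
      have h00 := ho 0 0
      have h11 := ho 1 1
      have h01 := ho 0 1
      rw [if_pos rfl] at h00 h11
      rw [if_neg zero_ne_one'] at h01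
      rw [area2_eq]
      rw [h00, h11, h01]
      norm_num
    unfold scal
    refine mul_pos (by norm_num) ?_
    refine Finset.sum_pos' (fun a _ => Finset.sum_nonneg fun b _ => hnn a b)
      ⟨0, Finset.mem_univ _, Finset.sum_pos' (fun b _ => hnn 0 b) ⟨1, Finset.mem_univ _, h01⟩⟩

/-- Quantitative positivity. -/
theorem gb_lower {n : ℕ} {δ s t : ℝ} (H : ∀ k, k ≤ n → PinchT k δ) (hs : 0 ≤ s) (ht : 0 ≤ t)
    (P : Arr (2 * n)) (hP : IsAlgCurv P) (hp : Pinched (δ * s) s P) :
    t ^ n * mgb (fun _ : Fin n => idA (2 * n)) ≤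
      gaussBonnet n (fun i j k l => t * idA (2 * n) i j k l + P i j k l) := by
  classical
  rw [expand]
  have hall := mix_all hs H n le_rfl P hP hp
  have h1 : t ^ n * mgb (fun _ : Fin n => idA (2 * n)) =
      t ^ (Finset.univ : Finset (Fin n)).card *
        mgb (fam (fun i => decide (i ∈ (Finset.univ : Finset (Fin n)))) P) := by
    rw [Finset.card_univ, Fintype.card_fin]
    congr 2
    funext i
    unfold fam
    simp
  rw [h1]
  refine Finset.single_le_sum (f := fun A : Finset (Fin n) => t ^ A.card *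
    mgb (fam (fun i => decide (i ∈ A)) P)) (fun A _ => ?_) ?_
  · exact mul_nonneg (pow_nonneg ht _) (hall _)
  · rw [Finset.mem_powerset]

theorem gb_neg {n : ℕ} (R : Arr (2 * n)) :
    gaussBonnet n (fun i j k l => - R i j k l) = (-1) ^ n * gaussBonnet n R := by
  unfold gaussBonnet
  rw [Finset.mul_sum]
  refine Finset.sum_congr rfl fun σ _ => ?_
  rw [Finset.mul_sum]
  refine Finset.sum_congr rfl fun τ _ => ?_
  rw [Finset.prod_neg]
  simp
  ring

theorem algCurv_neg {N : ℕ} {R : Arr N} (h : IsAlgCurv R) :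
    IsAlgCurv (fun i j k l => - R i j k l) where
  skew i j k l := by rw [h.skew i j k l]
  pair i j k l := by rw [h.pair i j k l]
  bianchi i j k l := by linear_combination -(h.bianchi i j k l)

theorem ev_neg {N : ℕ} (R : Arr N) (x y z w : Fin N → ℝ) :
    ev (fun i j k l => - R i j k l) x y z w = - ev R x y z w := by
  unfold ev
  rw [← Finset.sum_neg_distrib]
  refine Finset.sum_congr rfl fun i _ => ?_
  rw [← Finset.sum_neg_distrib]
  refine Finset.sum_congr rfl fun j _ => ?_
  rw [← Finset.sum_neg_distrib]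
  refine Finset.sum_congr rfl fun k _ => ?_
  rw [← Finset.sum_neg_distrib]
  refine Finset.sum_congr rfl fun l _ => ?_
  ring

/-- Positivity for pinched curvature tensors of arbitrary scale, weak and strict form. -/
theorem gb_pinched {n : ℕ} (hn : 1 ≤ n) {δ : ℝ} (hδ : δ < 1) (H : ∀ k, k ≤ n → PinchT k δ)
    (R : Arr (2 * n)) (hR : IsAlgCurv R) (a b : ℝ) (hb : 0 ≤ b)
    (hp : ∀ x y : Fin (2 * n) → ℝ, a * area2 x y ≤ ev R x y x y ∧ ev R x y x y ≤ b * area2 x y) :
    (δ * b ≤ a → 0 ≤ gaussBonnet n R) ∧ (δ * b < a → 0 < gaussBonnet n R) := by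
  constructor
  · intro h
    refine H n le_rfl R hR b hb fun x y => ⟨le_trans ?_ (hp x y).1, (hp x y).2⟩
    exact mul_le_mul_of_nonneg_right h (area2_nonneg x y)
  · intro h
    have hy : 0 < 1 - δ := by linarith
    -- comparison of `a` and `b`
    have hab : a ≤ b := by
      have ho := ONF_std (2 * n)
      have hne : (fst (⟨0, by omega⟩ : Fin n) : Fin (2 * n)) ≠ snd (⟨0, by omega⟩ : Fin n) :=
        fst_ne_snd _ _
      have h00 := ho (fst ⟨0, by omega⟩) (fst ⟨0, by omega⟩)
      have h11 := ho (snd ⟨0, by omega⟩) (snd ⟨0, by omega⟩)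
      have h01 := ho (fst ⟨0, by omega⟩) (snd ⟨0, by omega⟩)
      rw [if_pos rfl] at h00 h11
      rw [if_neg hne] at h01
      have h2 := hp (Pi.single (fst ⟨0, by omega⟩) 1) (Pi.single (snd ⟨0, by omega⟩) 1)
      rw [area2_eq, h00, h11, h01] at h2
      linarith [h2.1, h2.2]
    set t : ℝ := (a - δ * b) / (1 - δ) with ht
    have htpos : 0 < t := div_pos (by linarith) hy
    have hty : t * (1 - δ) = a - δ * b := by
      rw [ht]
      field_simp
    set s : ℝ := b - t with hs
    have hs0 : 0 ≤ s := by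
      have : 0 ≤ s * (1 - δ) := by
        rw [hs]
        nlinarith
      exact nonneg_of_mul_nonneg_left this hy
    have hlow : δ * s = a - t := by
      rw [hs]
      linarith
    have hmain := gb_lower H hs0 htpos.le (fun i j k l => R i j k l - t * idA (2 * n) i j k l)
      (algCurv_sub_idA hR t) (by
        intro x y
        rw [ev_sub_idA, hlow, hs]
        obtain ⟨hl, hu⟩ := hp x y
        constructor <;> linarith)
    have hfun : (fun i j k l => t * idA (2 * n) i j k l +
        (R i j k l - t * idA (2 * n) i j k l)) = R := by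
      funext i j k l
      ring
    rw [hfun] at hmain
    exact lt_of_lt_of_le (mul_pos (pow_pos htpos n) (gb_idA_pos n)) hmain

end Pool.Agent.H69Hopf
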