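import Mathlib

/-!
# Algebraic curvature tensors and the Gauss–Bonnet–Chern integrand in dimension `2 n`
-/

open Equiv Finset

namespace Pool.Agent.H69Hopf

/-- Arrays of real numbers with four indices in `Fin N`. -/
abbrev Arr (N : ℕ) := Fin N → Fin N → Fin N → Fin N → ℝ

/-- Algebraic curvature tensors on `ℝ^N` (components in the standard orthonormal basis, with the
convention that `R i j i j` is the sectional curvature of the plane spanned by the basis vectors
`i`, `j`): skew in the first pair, symmetric under exchange of the pairs, first Bianchi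
identity. -/
structure IsAlgCurv {N : ℕ} (R : Arr N) : Prop where
  skew : ∀ i j k l, R i j k l = - R j i k l
  pair : ∀ i j k l, R i j k l = R k l i j
  bianchi : ∀ i j k l, R i j k l + R j k i l + R k i j l = 0

/-- The value `R(x, y, z, w)` of the four-linear form with components `R`. -/
def ev {N : ℕ} (R : Arr N) (x y z w : Fin N → ℝ) : ℝ :=
  ∑ i, ∑ j, ∑ k, ∑ l, R i j k l * x i * y j * z k * w l

/-- The squared area `|x|² |y|² - ⟨x, y⟩²` of the parallelogram spanned by `x` and `y`. -/
def area2 {N : ℕ} (x y : Fin N → ℝ) : ℝ :=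
  (∑ i, x i ^ 2) * (∑ i, y i ^ 2) - (∑ i, x i * y i) ^ 2

/-- The index `2 i` of `Fin (2 n)`. -/
def fst {n : ℕ} (i : Fin n) : Fin (2 * n) := ⟨2 * i.1, by omega⟩

/-- The index `2 i + 1` of `Fin (2 n)`. -/
def snd {n : ℕ} (i : Fin n) : Fin (2 * n) := ⟨2 * i.1 + 1, by omega⟩

/-- The Gauss–Bonnet–Chern integrand of an algebraic curvature tensor in dimension `2 n`, up to
the positive universal factor `1 / ((8 π) ^ n * n!)`: the sum over all pairs of permutations
`σ, τ` of the `2 n` indices of
`sign σ * sign τ * ∏ i < n, R (σ (2 i)) (σ (2 i + 1)) (τ (2 i)) (τ (2 i + 1))`. -/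
noncomputable def gaussBonnet (n : ℕ) (R : Arr (2 * n)) : ℝ :=
  ∑ σ : Perm (Fin (2 * n)), ∑ τ : Perm (Fin (2 * n)),
    ((Perm.sign σ : ℤ) : ℝ) * ((Perm.sign τ : ℤ) : ℝ) *
      ∏ i : Fin n, R (σ (fst i)) (σ (snd i)) (τ (fst i)) (τ (snd i))

end Pool.Agent.H69Hopf
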