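import Pool.Agent.Lib.H69.Hopf.Milnor

open Equiv Finset

namespace Pool.Agent.H69Hopf

theorem algCurv_sub_idA {N : ℕ} {P : Arr N} (hP : IsAlgCurv P) (t : ℝ) :
    IsAlgCurv (fun i j k l => P i j k l - t * idA N i j k l) where
  skew i j k l := by
    rw [hP.skew i j k l]
    unfold idA
    ring
  pair i j k l := by
    rw [hP.pair i j k l]
    unfold idA
    have e : ∀ a b : Fin N, (if a = b then (1 : ℝ) else 0) = if b = a then 1 else 0 := by
      intro a b
      by_cases h : a = b
      · rw [if_pos h, if_pos h.symm]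
      · rw [if_neg h, if_neg (Ne.symm h)]
    rw [e k i, e l j, e k j, e l i]
    ring
  bianchi i j k l := by
    have h := hP.bianchi i j k l
    unfold idA
    have e : ∀ a b : Fin N, (if a = b then (1 : ℝ) else 0) = if b = a then 1 else 0 := by
      intro a b
      by_cases h : a = b
      · rw [if_pos h, if_pos h.symm]
      · rw [if_neg h, if_neg (Ne.symm h)]
    rw [e j i, e k j, e k i]
    linear_combination h

theorem ev_sub_idA {N : ℕ} (P : Arr N) (t : ℝ) (x y : Fin N → ℝ) :
    ev (fun i j k l => P i j k l - t * idA N i j k l) x y x y = ev P x y x y - t * area2 x y := by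
  have h1 : ev (idA N) x y x y = area2 x y := by
    rw [ev_idA, area2_eq, dot_comm y x]
    ring
  rw [← h1]
  unfold ev
  simp only [Finset.mul_sum, ← Finset.sum_sub_distrib]
  refine Finset.sum_congr rfl fun i _ => Finset.sum_congr rfl fun j _ =>
    Finset.sum_congr rfl fun k _ => Finset.sum_congr rfl fun l _ => ?_
  ring

/-- The recursion for the pinching constants. -/
theorem PinchT.succ {n : ℕ} {δ δ' : ℝ} (H : ∀ k, k ≤ n → PinchT k δ) (hδ : δ < 1) (hδ' : δ ≤ δ')
    (h1 : δ' ≤ 1) (hrec : (1 - δ') * (3 * n + (2 * n + 4) * (1 - δ)) ≤ 3 * (n + 1) * (1 - δ)) :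
    PinchT (n + 1) δ' := by
  intro P hP s' hs' hp
  have hy : 0 < 1 - δ := by linarith
  have hy' : 0 ≤ 1 - δ' := by linarith
  set s : ℝ := s' * (1 - δ') / (1 - δ) with hsdef
  have hs : 0 ≤ s := by positivity
  have hsy : s * (1 - δ) = s' * (1 - δ') := by
    rw [hsdef]
    field_simp
  have hle : s ≤ s' := by
    rw [hsdef, div_le_iff₀ hy]
    exact mul_le_mul_of_nonneg_left (by linarith) hs'
  set t : ℝ := s' - s with htdef
  have ht : 0 ≤ t := by linarith
  have hst : s * ((2 * n + 1) - (2 * n + 4) * δ) ≤ 3 * (n + 1) * t := by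
    have h2 : s * (3 * n + (2 * n + 4) * (1 - δ)) ≤ 3 * (n + 1) * s' := by
      rw [hsdef, div_mul_eq_mul_div, div_le_iff₀ hy]
      calc s' * (1 - δ') * (3 * n + (2 * n + 4) * (1 - δ))
          = s' * ((1 - δ') * (3 * n + (2 * n + 4) * (1 - δ))) := by ring
        _ ≤ s' * (3 * (n + 1) * (1 - δ)) := mul_le_mul_of_nonneg_left hrec hs'
        _ = 3 * (n + 1) * s' * (1 - δ) := by ring
    rw [htdef]
    linarith
  have hstep := step H hs ht hst (fun i j k l => P i j k l - t * idA (2 * (n + 1)) i j k l)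
    (algCurv_sub_idA hP t) (by
      intro x y
      rw [ev_sub_idA]
      obtain ⟨hl, hu⟩ := hp x y
      have ha := area2_nonneg x y
      refine ⟨?_, ?_⟩
      · have : δ * s = δ' * s' - t := by
          rw [htdef]
          linarith
        rw [this]
        linarith
      · have : s = s' - t := by rw [htdef]; ring
        rw [this]
        linarith)
  have hfun : (fun i j k l => t * idA (2 * (n + 1)) i j k l +
      (P i j k l - t * idA (2 * (n + 1)) i j k l)) = P := by
    funext i j k l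
    ring
  rw [hfun] at hstep
  exact hstep

theorem pinch0 (δ : ℝ) : PinchT 0 δ := by
  intro P _ s _ _
  unfold gaussBonnet
  have : (∑ σ : Perm (Fin (2 * 0)), ∑ τ : Perm (Fin (2 * 0)),
    ((Perm.sign σ : ℤ) : ℝ) * ((Perm.sign τ : ℤ) : ℝ) *
      ∏ i : Fin 0, P (σ (fst i)) (σ (snd i)) (τ (fst i)) (τ (snd i))) = 1 := by
    simp
  rw [this]
  exact zero_le_one

theorem gb1 (P : Arr (2 * 1)) (hP : IsAlgCurv P) : gaussBonnet 1 P = 4 * P 0 1 0 1 := by
  have hs : ∀ a b c d, P b a c d = - P a b c d := fun a b c d => hP.skew b a c d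
  have hs2 : ∀ a b c d, P a b d c = - P a b c d := fun a b c d => by
    rw [hP.pair, hs, hP.pair c d a b]
  have hsum : ∀ F : Perm (Fin 2) → ℝ, ∑ σ, F σ = F 1 + F (Equiv.swap 0 1) := by
    intro F
    have : (Finset.univ : Finset (Perm (Fin 2))) = {1, Equiv.swap 0 1} := by decide
    rw [this, Finset.sum_pair (by decide)]
  have hprod : ∀ σ τ : Perm (Fin (2 * 1)), (∏ i : Fin 1, P (σ (fst i)) (σ (snd i)) (τ (fst i))
      (τ (snd i))) = P (σ 0) (σ 1) (τ 0) (τ 1) := by
    intro σ τ
    rw [Fin.prod_univ_one]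
    rfl
  unfold gaussBonnet
  simp only [hprod]
  refine (hsum _).trans ?_
  have h3 : ∀ σ : Perm (Fin 2), (∑ τ : Perm (Fin (2 * 1)), ((Perm.sign σ : ℤ) : ℝ) *
      ((Perm.sign τ : ℤ) : ℝ) * P (σ 0) (σ 1) (τ 0) (τ 1)) =
      ((Perm.sign σ : ℤ) : ℝ) * (2 * P (σ 0) (σ 1) 0 1) := by
    intro σ
    refine (hsum _).trans ?_
    rw [Perm.sign_swap (by decide : (0 : Fin 2) ≠ 1)]
    simp only [Perm.sign_one, Perm.one_apply, Equiv.swap_apply_left, Equiv.swap_apply_right]
    have := hs2 (σ 0) (σ 1) 0 1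
    rw [this]
    push_cast
    ring
  rw [h3, h3, Perm.sign_swap (by decide : (0 : Fin 2) ≠ 1)]
  simp only [Perm.sign_one, Perm.one_apply, Equiv.swap_apply_left, Equiv.swap_apply_right]
  rw [hs 0 1 0 1]
  push_cast
  ring

theorem pinch1 : PinchT 1 0 := by
  intro P hP s _ hp
  rw [gb1 P hP]
  have h := (hp (Pi.single 0 1) (Pi.single 1 1)).1
  rw [zero_mul, zero_mul, ev_single] at h
  linarith

theorem pinch2 : PinchT 2 0 := by
  intro P hP s _ hp
  refine milnor P hP fun x y => ?_
  have := (hp x y).1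
  rwa [zero_mul, zero_mul] at this

end Pool.Agent.H69Hopf
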