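import Pool.Agent.Lib.H69.Hopf.Moment

open Finset

namespace Pool.Agent.H69Hopf

variable {N : ℕ}

/-- Jacobi form. -/
noncomputable def jac (G : Arr N) (x : Fin N → ℝ) (b d : Fin N) : ℝ :=
  ∑ a, ∑ c, G a b c d * x a * x c

/-- Ricci form. -/
noncomputable def ric (G : Arr N) (b d : Fin N) : ℝ := ∑ a, G a b a d

/-- Scalar curvature. -/
noncomputable def scal (G : Arr N) : ℝ := ∑ a, ∑ b, G a b a b

/-- Inner product of arrays. -/
noncomputable def ip (G P : Arr N) : ℝ := ∑ a, ∑ b, ∑ c, ∑ d, G a b c d * P a b c d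

theorem jac_quad (G : Arr N) (x z : Fin N → ℝ) :
    ∑ b, ∑ d, jac G x b d * z b * z d = ev G x z x z := by
  unfold jac ev
  simp only [Finset.sum_mul]
  calc ∑ b, ∑ d, ∑ a, ∑ c, G a b c d * x a * x c * z b * z d
      = ∑ b, ∑ a, ∑ d, ∑ c, G a b c d * x a * x c * z b * z d :=
        Finset.sum_congr rfl fun b _ => Finset.sum_comm
    _ = ∑ a, ∑ b, ∑ d, ∑ c, G a b c d * x a * x c * z b * z d := Finset.sum_comm
    _ = ∑ a, ∑ b, ∑ c, ∑ d, G a b c d * x a * x c * z b * z d :=
        Finset.sum_congr rfl fun a _ => Finset.sum_congr rfl fun b _ => Finset.sum_comm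
    _ = _ := by
        refine Finset.sum_congr rfl fun a _ => Finset.sum_congr rfl fun b _ =>
          Finset.sum_congr rfl fun c _ => Finset.sum_congr rfl fun d _ => ?_
        ring

theorem ev_skew_self (G : Arr N) (hG : ∀ a b c d, G b a c d = - G a b c d)
    (x z w : Fin N → ℝ) : ev G x x z w = 0 := by
  have h : ev G x x z w = - ev G x x z w := by
    conv_lhs => unfold ev
    rw [Finset.sum_comm]
    unfold ev
    rw [← Finset.sum_neg_distrib]
    refine Finset.sum_congr rfl fun a _ => ?_
    rw [← Finset.sum_neg_distrib]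
    refine Finset.sum_congr rfl fun b _ => ?_
    rw [← Finset.sum_neg_distrib]
    refine Finset.sum_congr rfl fun c _ => ?_
    rw [← Finset.sum_neg_distrib]
    refine Finset.sum_congr rfl fun d _ => ?_
    rw [hG a b c d]; ring
  linarith

/-- Product of Jacobi forms. -/
noncomputable def trJ (G P : Arr N) (x : Fin N → ℝ) : ℝ := ∑ b, ∑ d, jac P x b d * jac G x b d

theorem dot_ite_sum (x z : Fin N → ℝ) (c : ℝ) :
    ∑ b, ∑ d, (c * (if b = d then 1 else 0) - x b * x d) * z b * z d =
      c * dot z z - dot x z ^ 2 := by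
  have h1 : ∀ b d : Fin N, (c * (if b = d then 1 else 0) - x b * x d) * z b * z d =
      (if b = d then c * (z b * z d) else 0) - (x b * z b) * (x d * z d) := by
    intro b d
    split_ifs <;> ring
  simp only [h1, Finset.sum_sub_distrib, Finset.sum_ite_eq, Finset.mem_univ, if_true]
  rw [← Finset.mul_sum, ← Finset.sum_mul_sum, sq]
  rfl

theorem trJ_lower (G P : Arr N) (hG1 : ∀ a b c d, G b a c d = - G a b c d)
    (hGpos : ∀ x y : Fin N → ℝ, 0 ≤ ev G x y x y) (hP : IsAlgCurv P) (α : ℝ)
    (hlo : ∀ x y : Fin N → ℝ, α * area2 x y ≤ ev P x y x y) (x : Fin N → ℝ) :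
    α * (dot x x * ∑ b, jac G x b b) ≤ trJ G P x := by
  have hsym : ∀ b d, jac P x b d = jac P x d b := by
    intro b d
    unfold jac
    rw [Finset.sum_comm]
    refine Finset.sum_congr rfl fun a _ => Finset.sum_congr rfl fun c _ => ?_
    rw [hP.pair]; ring
  have h := trace_nonneg
    (fun b d => jac P x b d - α * (dot x x * (if b = d then 1 else 0) - x b * x d))
    (fun b d => jac G x b d) ?_ ?_ ?_
  · have h2 : ∑ b, ∑ d, (jac P x b d - α * (dot x x * (if b = d then 1 else 0) - x b * x d)) *
        jac G x b d = trJ G P x - α * (dot x x * ∑ b, jac G x b b) := by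
      have h3 : ∀ b d : Fin N, (jac P x b d - α * (dot x x * (if b = d then 1 else 0) -
          x b * x d)) * jac G x b d = jac P x b d * jac G x b d -
          α * (if b = d then dot x x * jac G x b d else 0) +
          α * (jac G x b d * x b * x d) := by
        intro b d
        split_ifs <;> ring
      simp only [h3, Finset.sum_add_distrib, Finset.sum_sub_distrib, ← Finset.mul_sum,
        Finset.sum_ite_eq, Finset.mem_univ, if_true]
      rw [jac_quad, ev_skew_self G hG1]
      unfold trJ
      ring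
    rw [h2] at h
    linarith
  · intro b d
    rw [hsym b d]
    congr 2
    rw [mul_comm (x b)]
    congr 1
    by_cases h : b = d
    · subst h; rfl
    · rw [if_neg h, if_neg (fun h' => h h'.symm)]
  · intro z
    have h4 : ∀ b d : Fin N, (jac P x b d - α * (dot x x * (if b = d then 1 else 0) -
        x b * x d)) * z b * z d = jac P x b d * z b * z d -
        α * ((dot x x * (if b = d then 1 else 0) - x b * x d) * z b * z d) := by
      intro b d; ring
    simp only [h4, Finset.sum_sub_distrib, ← Finset.mul_sum]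
    rw [jac_quad, dot_ite_sum, ← area2_eq]
    linarith [hlo x z]
  · intro z
    rw [jac_quad]
    exact hGpos x z

theorem ric_quad (G : Arr N) (z : Fin N → ℝ) :
    ∑ b, ∑ d, ric G b d * z b * z d = ∑ a, ev G (Pi.single a 1) z (Pi.single a 1) z := by
  unfold ric
  simp only [Finset.sum_mul]
  calc ∑ b, ∑ d, ∑ a, G a b a d * z b * z d
      = ∑ b, ∑ a, ∑ d, G a b a d * z b * z d :=
        Finset.sum_congr rfl fun b _ => Finset.sum_comm
    _ = ∑ a, ∑ b, ∑ d, G a b a d * z b * z d := Finset.sum_comm
    _ = _ := by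
        refine Finset.sum_congr rfl fun a _ => ?_
        rw [← jac_quad]
        refine Finset.sum_congr rfl fun b _ => Finset.sum_congr rfl fun d _ => ?_
        congr 2
        unfold jac
        rw [Finset.sum_eq_single a]
        · rw [Finset.sum_eq_single a]
          · simp
          · intro c _ hc
            simp [Pi.single_apply, hc]
          · simp
        · intro c _ hc
          refine Finset.sum_eq_zero fun c' _ => ?_
          simp [Pi.single_apply, hc]
        · simp

theorem area2_single (a : Fin N) (z : Fin N → ℝ) :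
    area2 (Pi.single a 1) z = dot z z - z a ^ 2 := by
  rw [area2_eq]
  have h1 : dot (Pi.single a 1) z = z a := by
    unfold dot
    rw [Finset.sum_eq_single a]
    · simp
    · intro b _ hb
      simp [Pi.single_apply, hb]
    · simp
  have h2 : dot (Pi.single a (1 : ℝ)) (Pi.single a 1) = 1 := by
    unfold dot
    rw [Finset.sum_eq_single a]
    · simp
    · intro b _ hb
      simp [Pi.single_apply, hb]
    · simp
  rw [h1, h2]; ring

theorem ric_upper (G P : Arr N) (hGpos : ∀ x y : Fin N → ℝ, 0 ≤ ev G x y x y)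
    (hP : IsAlgCurv P) (s : ℝ) (hhi : ∀ x y : Fin N → ℝ, ev P x y x y ≤ s * area2 x y) :
    ∑ b, ∑ d, ric P b d * ric G b d ≤ (N - 1 : ℝ) * s * scal G := by
  have h := trace_nonneg (fun b d => (N - 1 : ℝ) * s * (if b = d then 1 else 0) - ric P b d)
    (fun b d => ric G b d) ?_ ?_ ?_
  · have h3 : ∀ b d : Fin N, ((N - 1 : ℝ) * s * (if b = d then 1 else 0) - ric P b d) * ric G b d =
        (if b = d then (N - 1 : ℝ) * s * ric G b d else 0) - ric P b d * ric G b d := by
      intro b d
      split_ifs <;> ring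
    simp only [h3, Finset.sum_sub_distrib, Finset.sum_ite_eq, Finset.mem_univ, if_true] at h
    rw [← Finset.mul_sum] at h
    have h4 : ∑ b, ric G b b = scal G := by
      unfold ric scal
      rw [Finset.sum_comm]
    rw [h4] at h
    linarith
  · intro b d
    have h5 : ric P b d = ric P d b := by
      unfold ric
      refine Finset.sum_congr rfl fun a _ => ?_
      rw [hP.pair]
    rw [h5]
    by_cases h : b = d
    · subst h; rfl
    · rw [if_neg h, if_neg (fun h' => h h'.symm)]
  · intro z
    have h4 : ∀ b d : Fin N, ((N - 1 : ℝ) * s * (if b = d then 1 else 0) - ric P b d) * z b * z d =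
        (if b = d then (N - 1 : ℝ) * s * (z b * z d) else 0) - ric P b d * z b * z d := by
      intro b d
      split_ifs <;> ring
    simp only [h4, Finset.sum_sub_distrib, Finset.sum_ite_eq, Finset.mem_univ, if_true]
    rw [ric_quad, ← Finset.mul_sum]
    have h5 : ∑ a, ev P (Pi.single a 1) z (Pi.single a 1) z ≤
        ∑ a : Fin N, s * (dot z z - z a ^ 2) := by
      refine Finset.sum_le_sum fun a _ => ?_
      rw [← area2_single]
      exact hhi _ _
    have h6 : ∑ a : Fin N, s * (dot z z - z a ^ 2) = (N - 1 : ℝ) * s * ∑ b, z b * z b := by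
      rw [← Finset.mul_sum, Finset.sum_sub_distrib, Finset.sum_const, Finset.card_univ,
        Fintype.card_fin, nsmul_eq_mul]
      have : ∑ a : Fin N, z a ^ 2 = ∑ b, z b * z b := Finset.sum_congr rfl fun a _ => sq _
      rw [this]
      unfold dot
      ring
    rw [h6] at h5
    linarith
  · intro z
    rw [ric_quad]
    exact Finset.sum_nonneg fun a _ => hGpos _ _

theorem bianchi_ip (G P : Arr N) (hG1 : ∀ a b c d, G b a c d = - G a b c d) (hP : IsAlgCurv P) :
    ∑ a, ∑ b, ∑ c, ∑ d, G a b c d * P c b a d = ip G P / 2 := by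
  have hX : ∑ a, ∑ b, ∑ c, ∑ d, G a b c d * P b c a d =
      - ∑ a, ∑ b, ∑ c, ∑ d, G a b c d * P a c b d := by
    rw [Finset.sum_comm, ← Finset.sum_neg_distrib]
    refine Finset.sum_congr rfl fun a _ => ?_
    rw [← Finset.sum_neg_distrib]
    refine Finset.sum_congr rfl fun b _ => ?_
    rw [← Finset.sum_neg_distrib]
    refine Finset.sum_congr rfl fun c _ => ?_
    rw [← Finset.sum_neg_distrib]
    refine Finset.sum_congr rfl fun d _ => ?_
    rw [hG1 a b c d]; ring
  have hY : ∑ a, ∑ b, ∑ c, ∑ d, G a b c d * P c a b d =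
      - ∑ a, ∑ b, ∑ c, ∑ d, G a b c d * P a c b d := by
    rw [← Finset.sum_neg_distrib]
    refine Finset.sum_congr rfl fun a _ => ?_
    rw [← Finset.sum_neg_distrib]
    refine Finset.sum_congr rfl fun b _ => ?_
    rw [← Finset.sum_neg_distrib]
    refine Finset.sum_congr rfl fun c _ => ?_
    rw [← Finset.sum_neg_distrib]
    refine Finset.sum_congr rfl fun d _ => ?_
    rw [hP.skew c a b d]; ring
  have hZ : ip G P + ∑ a, ∑ b, ∑ c, ∑ d, G a b c d * P b c a d +
      ∑ a, ∑ b, ∑ c, ∑ d, G a b c d * P c a b d = 0 := by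
    unfold ip
    simp only [← Finset.sum_add_distrib]
    refine Finset.sum_eq_zero fun a _ => Finset.sum_eq_zero fun b _ => Finset.sum_eq_zero fun c _ =>
      Finset.sum_eq_zero fun d _ => ?_
    have := hP.bianchi a b c d
    calc G a b c d * P a b c d + G a b c d * P b c a d + G a b c d * P c a b d
        = G a b c d * (P a b c d + P b c a d + P c a b d) := by ring
      _ = 0 := by rw [this, mul_zero]
  have hW : ∑ a, ∑ b, ∑ c, ∑ d, G a b c d * P c b a d =
      - ∑ a, ∑ b, ∑ c, ∑ d, G a b c d * P b c a d := by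
    rw [← Finset.sum_neg_distrib]
    refine Finset.sum_congr rfl fun a _ => ?_
    rw [← Finset.sum_neg_distrib]
    refine Finset.sum_congr rfl fun b _ => ?_
    rw [← Finset.sum_neg_distrib]
    refine Finset.sum_congr rfl fun c _ => ?_
    rw [← Finset.sum_neg_distrib]
    refine Finset.sum_congr rfl fun d _ => ?_
    rw [hP.skew c b a d]; ring
  rw [hW, hX]
  rw [hX, hY] at hZ
  linarith

/-- Coefficients of the quartic form `trJ`. -/
noncomputable def kk (G P : Arr N) (a c a' c' : Fin N) : ℝ := ∑ b, ∑ d, G a b c d * P a' b c' d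

theorem trJ_eq (G P : Arr N) (x : Fin N → ℝ) :
    trJ G P x = ∑ a, ∑ c, ∑ a', ∑ c', kk G P a c a' c' * (x a * x c * x a' * x c') := by
  unfold trJ jac kk
  calc ∑ b, ∑ d, (∑ a', ∑ c', P a' b c' d * x a' * x c') * (∑ a, ∑ c, G a b c d * x a * x c)
      = ∑ b, ∑ d, ∑ a, ∑ c, ∑ a', ∑ c', G a b c d * P a' b c' d * (x a * x c * x a' * x c') := by
        refine Finset.sum_congr rfl fun b _ => Finset.sum_congr rfl fun d _ => ?_
        simp only [Finset.mul_sum, Finset.sum_mul]
        refine Finset.sum_congr rfl fun a _ => Finset.sum_congr rfl fun c _ =>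
          Finset.sum_congr rfl fun a' _ => Finset.sum_congr rfl fun c' _ => ?_
        ring
    _ = ∑ p : Fin N × Fin N, ∑ q : ((Fin N × Fin N) × (Fin N × Fin N)),
          G q.1.1 p.1 q.1.2 p.2 * P q.2.1 p.1 q.2.2 p.2 *
            (x q.1.1 * x q.1.2 * x q.2.1 * x q.2.2) := by
        simp only [Fintype.sum_prod_type]
    _ = ∑ q : ((Fin N × Fin N) × (Fin N × Fin N)), ∑ p : Fin N × Fin N,
          G q.1.1 p.1 q.1.2 p.2 * P q.2.1 p.1 q.2.2 p.2 *
            (x q.1.1 * x q.1.2 * x q.2.1 * x q.2.2) := Finset.sum_comm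
    _ = ∑ a, ∑ c, ∑ a', ∑ c', ∑ b, ∑ d, G a b c d * P a' b c' d *
          (x a * x c * x a' * x c') := by
        simp only [Fintype.sum_prod_type]
    _ = _ := by
        refine Finset.sum_congr rfl fun a _ => Finset.sum_congr rfl fun c _ =>
          Finset.sum_congr rfl fun a' _ => Finset.sum_congr rfl fun c' _ => ?_
        simp only [Finset.sum_mul]

theorem kk_diag (G P : Arr N) (i : Fin N) : kk G P i i i i = trJ G P (Pi.single i 1) := by
  have h : ∀ (G : Arr N) (b d : Fin N), jac G (Pi.single i 1) b d = G i b i d := by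
    intro G b d
    unfold jac
    rw [Finset.sum_eq_single i]
    · rw [Finset.sum_eq_single i]
      · simp
      · intro c _ hc
        simp [Pi.single_apply, hc]
      · simp
    · intro c _ hc
      refine Finset.sum_eq_zero fun c' _ => ?_
      simp [Pi.single_apply, hc]
    · simp
  unfold kk trJ
  refine Finset.sum_congr rfl fun b _ => Finset.sum_congr rfl fun d _ => ?_
  rw [h, h]; ring

theorem jac_single (G : Arr N) (i : Fin N) (b d : Fin N) :
    jac G (Pi.single i 1) b d = G i b i d := by
  unfold jac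
  rw [Finset.sum_eq_single i]
  · rw [Finset.sum_eq_single i]
    · simp
    · intro c _ hc
      simp [Pi.single_apply, hc]
    · simp
  · intro c _ hc
    refine Finset.sum_eq_zero fun c' _ => ?_
    simp [Pi.single_apply, hc]
  · simp

theorem sum_kk1 (G P : Arr N) : ∑ a, ∑ b, kk G P a a b b = ∑ b, ∑ d, ric P b d * ric G b d := by
  unfold kk ric
  calc ∑ a, ∑ a', ∑ b, ∑ d, G a b a d * P a' b a' d
      = ∑ q : Fin N × Fin N, ∑ p : Fin N × Fin N, G q.1 p.1 q.1 p.2 * P q.2 p.1 q.2 p.2 := by
        simp only [Fintype.sum_prod_type]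
    _ = ∑ p : Fin N × Fin N, ∑ q : Fin N × Fin N, G q.1 p.1 q.1 p.2 * P q.2 p.1 q.2 p.2 :=
        Finset.sum_comm
    _ = ∑ b, ∑ d, ∑ a, ∑ a', G a b a d * P a' b a' d := by
        simp only [Fintype.sum_prod_type]
    _ = _ := by
        refine Finset.sum_congr rfl fun b _ => Finset.sum_congr rfl fun d _ => ?_
        rw [Finset.sum_mul_sum, Finset.sum_comm]
        refine Finset.sum_congr rfl fun a _ => Finset.sum_congr rfl fun a' _ => ?_
        ring

theorem sum_kk2 (G P : Arr N) : ∑ a, ∑ b, kk G P a b a b = ip G P := by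
  unfold kk ip
  refine Finset.sum_congr rfl fun a _ => ?_
  rw [Finset.sum_comm]

theorem sum_kk3 (G P : Arr N) :
    ∑ a, ∑ b, kk G P a b b a = ∑ a, ∑ b, ∑ c, ∑ d, G a b c d * P c b a d := by
  unfold kk
  refine Finset.sum_congr rfl fun a _ => ?_
  rw [Finset.sum_comm]

/-- Key inequality. -/
theorem key_lower (G P : Arr N) (hG1 : ∀ a b c d, G b a c d = - G a b c d)
    (hGpos : ∀ x y : Fin N → ℝ, 0 ≤ ev G x y x y) (hP : IsAlgCurv P) (α s : ℝ)
    (hlo : ∀ x y : Fin N → ℝ, α * area2 x y ≤ ev P x y x y)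
    (hhi : ∀ x y : Fin N → ℝ, ev P x y x y ≤ s * area2 x y) :
    ((N + 2 : ℝ) * α - (N - 1 : ℝ) * s) * scal G ≤ 3 / 2 * ip G P := by
  have hcub := cubature (kk G P)
  rw [sum_kk1, sum_kk2, sum_kk3, bianchi_ip G P hG1 hP] at hcub
  have h1 : (∑ ε : Fin N → Bool, ∑ a, ∑ b, ∑ c, ∑ d,
      kk G P a b c d * (sv ε a * sv ε b * sv ε c * sv ε d)) =
      ∑ ε : Fin N → Bool, trJ G P (sv ε) :=
    Finset.sum_congr rfl fun ε _ => (trJ_eq G P (sv ε)).symm
  rw [h1] at hcub
  have h2 : ∑ i, kk G P i i i i = ∑ i, trJ G P (Pi.single i 1) :=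
    Finset.sum_congr rfl fun i _ => kk_diag G P i
  rw [h2] at hcub
  -- lower bounds
  have h3 : (2 : ℝ) ^ N * (α * (N * scal G)) ≤ ∑ ε : Fin N → Bool, trJ G P (sv ε) := by
    have h4 : ∀ ε : Fin N → Bool, dot (sv ε) (sv ε) = N := by
      intro ε
      unfold dot
      simp [sv_sq]
    have h5 : ∑ ε : Fin N → Bool, α * (dot (sv ε) (sv ε) * ∑ b, jac G (sv ε) b b) =
        2 ^ N * (α * (N * scal G)) := by
      simp only [h4]
      rw [← Finset.mul_sum, ← Finset.mul_sum]
      have h6 : ∑ ε : Fin N → Bool, ∑ b, jac G (sv ε) b b = 2 ^ N * scal G := by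
        unfold jac scal
        calc ∑ ε : Fin N → Bool, ∑ b, ∑ a, ∑ c, G a b c b * sv ε a * sv ε c
            = ∑ b, ∑ a, ∑ c, G a b c b * ∑ ε : Fin N → Bool, sv ε a * sv ε c := by
              rw [Finset.sum_comm]
              refine Finset.sum_congr rfl fun b _ => ?_
              rw [Finset.sum_comm]
              refine Finset.sum_congr rfl fun a _ => ?_
              rw [Finset.sum_comm]
              refine Finset.sum_congr rfl fun c _ => ?_
              rw [Finset.mul_sum]
              refine Finset.sum_congr rfl fun ε _ => ?_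
              ring
          _ = ∑ b, ∑ a, 2 ^ N * G a b a b := by
              refine Finset.sum_congr rfl fun b _ => Finset.sum_congr rfl fun a _ => ?_
              simp only [moment2]
              rw [Finset.sum_eq_single a]
              · simp; ring
              · intro c _ hc
                rw [if_neg (fun h => hc h.symm)]; ring
              · simp
          _ = _ := by
              rw [Finset.sum_comm, Finset.mul_sum]
              refine Finset.sum_congr rfl fun a _ => ?_
              rw [Finset.mul_sum]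
      rw [h6]; ring
    rw [← h5]
    exact Finset.sum_le_sum fun ε _ => trJ_lower G P hG1 hGpos hP α hlo (sv ε)
  have h7 : α * scal G ≤ ∑ i, trJ G P (Pi.single i 1) := by
    have h8 : ∑ i : Fin N, α * (dot (Pi.single i (1 : ℝ)) (Pi.single i 1) *
        ∑ b, jac G (Pi.single i 1) b b) = α * scal G := by
      rw [← Finset.mul_sum]
      congr 1
      unfold scal
      refine Finset.sum_congr rfl fun i _ => ?_
      have h9 : dot (Pi.single i (1 : ℝ)) (Pi.single i 1) = 1 := by
        unfold dot
        rw [Finset.sum_eq_single i]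
        · simp
        · intro b _ hb
          simp [Pi.single_apply, hb]
        · simp
      rw [h9, one_mul]
      simp only [jac_single]
    rw [← h8]
    exact Finset.sum_le_sum fun i _ => trJ_lower G P hG1 hGpos hP α hlo _
  have h10 := ric_upper G P hGpos hP s hhi
  have h2N : (0 : ℝ) < 2 ^ N := by positivity
  have h11 : (2 : ℝ) ^ N * (α * (N * scal G)) + 2 ^ N * (2 * (α * scal G)) ≤
      2 ^ N * ((∑ b, ∑ d, ric P b d * ric G b d) + ip G P + ip G P / 2) := by
    have h12 : (2 : ℝ) ^ N * (2 * (α * scal G)) ≤ 2 ^ N * (2 * ∑ i, trJ G P (Pi.single i 1)) :=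
      mul_le_mul_of_nonneg_left (mul_le_mul_of_nonneg_left h7 (by norm_num)) h2N.le
    linarith
  rw [← mul_add] at h11
  have h13 := le_of_mul_le_mul_left h11 h2N
  linarith

end Pool.Agent.H69Hopf
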