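import Pool.Agent.Lib.H69.Hopf.Cof
import Pool.Agent.Lib.H69.Hopf.Key

open Equiv Finset

namespace Pool.Agent.H69Hopf

/-! ### Symmetry of the mixed form -/

/-- Block permutation, as a function. -/
def blkFun {m : ℕ} (e : Perm (Fin m)) (r : Fin (2 * m)) : Fin (2 * m) :=
  ⟨2 * (e ⟨r.1 / 2, by omega⟩).1 + r.1 % 2, by
    have := (e ⟨r.1 / 2, by omega⟩).2
    omega⟩

theorem blkFun_fst {m : ℕ} (e : Perm (Fin m)) (i : Fin m) : blkFun e (fst i) = fst (e i) := by
  apply Fin.ext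
  have h : (⟨(2 * i.1) / 2, by omega⟩ : Fin m) = i := Fin.ext (by simp)
  simp only [blkFun, fst]
  rw [h]
  simp

theorem blkFun_snd {m : ℕ} (e : Perm (Fin m)) (i : Fin m) : blkFun e (snd i) = snd (e i) := by
  apply Fin.ext
  have h : (⟨(2 * i.1 + 1) / 2, by omega⟩ : Fin m) = i := Fin.ext (by simp; omega)
  simp only [blkFun, snd]
  rw [h]
  omega

/-- Block permutation. -/
def blk {m : ℕ} (e : Perm (Fin m)) : Perm (Fin (2 * m)) where
  toFun := blkFun e
  invFun := blkFun e.symm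
  left_inv r := by
    obtain ⟨i, rfl | rfl⟩ := exists_fst_or_snd r
    · rw [blkFun_fst, blkFun_fst, Equiv.symm_apply_apply]
    · rw [blkFun_snd, blkFun_snd, Equiv.symm_apply_apply]
  right_inv r := by
    obtain ⟨i, rfl | rfl⟩ := exists_fst_or_snd r
    · rw [blkFun_fst, blkFun_fst, Equiv.apply_symm_apply]
    · rw [blkFun_snd, blkFun_snd, Equiv.apply_symm_apply]

theorem mgb_perm {m : ℕ} (T : Fin m → Arr (2 * m)) (e : Perm (Fin m)) :
    mgb (fun i => T (e i)) = mgb T := by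
  unfold mgb
  symm
  rw [← Equiv.sum_comp (Equiv.mulRight (blk e⁻¹))]
  refine Finset.sum_congr rfl fun σ _ => ?_
  rw [← Equiv.sum_comp (Equiv.mulRight (blk e⁻¹))]
  refine Finset.sum_congr rfl fun τ _ => ?_
  simp only [Equiv.coe_mulRight]
  have h1 : ∀ (ρ : Perm (Fin (2 * m))) (i : Fin m), (ρ * blk e⁻¹) (fst i) = ρ (fst (e⁻¹ i)) := by
    intro ρ i
    rw [Perm.mul_apply]
    congr 1
    exact blkFun_fst _ _
  have h2 : ∀ (ρ : Perm (Fin (2 * m))) (i : Fin m), (ρ * blk e⁻¹) (snd i) = ρ (snd (e⁻¹ i)) := by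
    intro ρ i
    rw [Perm.mul_apply]
    congr 1
    exact blkFun_snd _ _
  simp only [h1, h2]
  have h3 : (((Perm.sign (σ * blk e⁻¹) : ℤˣ) : ℤ) : ℝ) * (((Perm.sign (τ * blk e⁻¹) : ℤˣ) : ℤ) : ℝ) =
      ((Perm.sign σ : ℤ) : ℝ) * ((Perm.sign τ : ℤ) : ℝ) := by
    rw [Perm.sign_mul, Perm.sign_mul]
    have h4 : (((Perm.sign (blk e⁻¹) : ℤˣ) : ℤ) : ℝ) * (((Perm.sign (blk e⁻¹) : ℤˣ) : ℤ) : ℝ) = 1 := by
      rcases Int.units_eq_one_or (Perm.sign (blk e⁻¹)) with h | h <;> rw [h] <;> norm_num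
    push_cast
    calc _ = ((Perm.sign σ : ℤ) : ℝ) * ((Perm.sign τ : ℤ) : ℝ) *
        ((((Perm.sign (blk e⁻¹) : ℤˣ) : ℤ) : ℝ) * (((Perm.sign (blk e⁻¹) : ℤˣ) : ℤ) : ℝ)) := by ring
      _ = _ := by rw [h4, mul_one]
  rw [h3]
  congr 1
  rw [← Equiv.prod_comp e]
  refine Finset.prod_congr rfl fun i _ => ?_
  simp

/-! ### The identity array and pull-backs -/

/-- Curvature tensor of constant curvature one. -/
def idA (N : ℕ) : Arr N := fun i j k l =>
  (if i = k then 1 else 0) * (if j = l then 1 else 0) -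
    (if i = l then 1 else 0) * (if j = k then 1 else 0)

theorem ev_idA {N : ℕ} (x y z w : Fin N → ℝ) :
    ev (idA N) x y z w = dot x z * dot y w - dot x w * dot y z := by
  have h1 : ∀ i j k l : Fin N, idA N i j k l * x i * y j * z k * w l =
      (if i = k then (if j = l then x i * y j * z k * w l else 0) else 0) -
      (if i = l then (if j = k then x i * y j * z k * w l else 0) else 0) := by
    intro i j k l
    unfold idA
    split_ifs <;> ring
  unfold ev
  simp only [h1, Finset.sum_sub_distrib]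
  have e1 : (∑ i, ∑ j, ∑ k, ∑ l, (if i = k then (if j = l then x i * y j * z k * w l else 0)
      else 0)) = dot x z * dot y w := by
    unfold dot
    rw [Finset.sum_mul_sum]
    refine Finset.sum_congr rfl fun i _ => Finset.sum_congr rfl fun j _ => ?_
    rw [Finset.sum_eq_single i]
    · rw [Finset.sum_eq_single j]
      · simp; ring
      · intro l _ hl
        rw [if_pos rfl, if_neg (fun h => hl h.symm)]
      · simp
    · intro k _ hk
      refine Finset.sum_eq_zero fun l _ => ?_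
      rw [if_neg (fun h => hk h.symm)]
    · simp
  have e2 : (∑ i, ∑ j, ∑ k, ∑ l, (if i = l then (if j = k then x i * y j * z k * w l else 0)
      else 0)) = dot x w * dot y z := by
    unfold dot
    rw [Finset.sum_mul_sum]
    refine Finset.sum_congr rfl fun i _ => Finset.sum_congr rfl fun j _ => ?_
    rw [Finset.sum_eq_single j]
    · rw [Finset.sum_eq_single i]
      · simp; ring
      · intro l _ hl
        rw [if_neg (fun h => hl h.symm)]
      · simp
    · intro k _ hk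
      refine Finset.sum_eq_zero fun l _ => ?_
      by_cases h : i = l
      · rw [if_pos h, if_neg (fun h => hk h.symm)]
      · rw [if_neg h]
    · simp
  rw [e1, e2]

theorem pull_idA {M N : ℕ} {v : Fin M → (Fin N → ℝ)} (hv : ONF v) : pull v (idA N) = idA M := by
  funext i j k l
  unfold pull
  rw [ev_idA, hv, hv, hv, hv]
  rfl

theorem ev_skew {N : ℕ} {R : Arr N} (h : IsAlgCurv R) (x y z w : Fin N → ℝ) :
    ev R x y z w = - ev R y x z w := by
  conv_lhs => unfold ev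
  rw [Finset.sum_comm]
  unfold ev
  rw [← Finset.sum_neg_distrib]
  refine Finset.sum_congr rfl fun a _ => ?_
  rw [← Finset.sum_neg_distrib]
  refine Finset.sum_congr rfl fun b _ => ?_
  rw [← Finset.sum_neg_distrib]
  refine Finset.sum_congr rfl fun c _ => ?_
  rw [← Finset.sum_neg_distrib]
  refine Finset.sum_congr rfl fun d _ => ?_
  rw [h.skew b a c d]; ring

/-- `ev` as a sum over quadruples. -/
theorem ev_quad {N : ℕ} (R : Arr N) (x y z w : Fin N → ℝ) :
    ev R x y z w = ∑ q : Fin N × Fin N × Fin N × Fin N,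
      R q.1 q.2.1 q.2.2.1 q.2.2.2 * x q.1 * y q.2.1 * z q.2.2.1 * w q.2.2.2 := by
  unfold ev
  simp only [Fintype.sum_prod_type]

theorem ev_pair {N : ℕ} {R : Arr N} (h : IsAlgCurv R) (x y z w : Fin N → ℝ) :
    ev R x y z w = ev R z w x y := by
  rw [ev_quad, ev_quad]
  let e : (Fin N × Fin N × Fin N × Fin N) ≃ (Fin N × Fin N × Fin N × Fin N) :=
    { toFun := fun q => (q.2.2.1, q.2.2.2, q.1, q.2.1)
      invFun := fun q => (q.2.2.1, q.2.2.2, q.1, q.2.1)
      left_inv := fun q => rfl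
      right_inv := fun q => rfl }
  rw [← Equiv.sum_comp e]
  refine Finset.sum_congr rfl fun q _ => ?_
  simp only [e, Equiv.coe_fn_mk]
  rw [h.pair q.2.2.1 q.2.2.2 q.1 q.2.1]; ring

theorem ev_bianchi {N : ℕ} {R : Arr N} (h : IsAlgCurv R) (x y z w : Fin N → ℝ) :
    ev R x y z w + ev R y z x w + ev R z x y w = 0 := by
  rw [ev_quad, ev_quad, ev_quad]
  let e1 : (Fin N × Fin N × Fin N × Fin N) ≃ (Fin N × Fin N × Fin N × Fin N) :=
    { toFun := fun q => (q.2.1, q.2.2.1, q.1, q.2.2.2)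
      invFun := fun q => (q.2.2.1, q.1, q.2.1, q.2.2.2)
      left_inv := fun q => rfl
      right_inv := fun q => rfl }
  have h1 : (∑ q : Fin N × Fin N × Fin N × Fin N,
      R q.1 q.2.1 q.2.2.1 q.2.2.2 * y q.1 * z q.2.1 * x q.2.2.1 * w q.2.2.2) =
      ∑ q : Fin N × Fin N × Fin N × Fin N,
      R q.2.1 q.2.2.1 q.1 q.2.2.2 * y q.2.1 * z q.2.2.1 * x q.1 * w q.2.2.2 :=
    (Equiv.sum_comp e1 _).symm
  have h2 : (∑ q : Fin N × Fin N × Fin N × Fin N,
      R q.1 q.2.1 q.2.2.1 q.2.2.2 * z q.1 * x q.2.1 * y q.2.2.1 * w q.2.2.2) =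
      ∑ q : Fin N × Fin N × Fin N × Fin N,
      R q.2.2.1 q.1 q.2.1 q.2.2.2 * z q.2.2.1 * x q.1 * y q.2.1 * w q.2.2.2 :=
    (Equiv.sum_comp e1.symm _).symm
  rw [h1, h2, ← Finset.sum_add_distrib, ← Finset.sum_add_distrib]
  refine Finset.sum_eq_zero fun q _ => ?_
  have := h.bianchi q.1 q.2.1 q.2.2.1 q.2.2.2
  calc _ = (R q.1 q.2.1 q.2.2.1 q.2.2.2 + R q.2.1 q.2.2.1 q.1 q.2.2.2 +
        R q.2.2.1 q.1 q.2.1 q.2.2.2) * (x q.1 * y q.2.1 * z q.2.2.1 * w q.2.2.2) := by ring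
    _ = 0 := by rw [this, zero_mul]

theorem pull_algCurv {M N : ℕ} (v : Fin M → (Fin N → ℝ)) {R : Arr N} (h : IsAlgCurv R) :
    IsAlgCurv (pull v R) where
  skew i j k l := ev_skew h _ _ _ _
  pair i j k l := ev_pair h _ _ _ _
  bianchi i j k l := ev_bianchi h _ _ _ _

/-- Sectional curvatures in the interval `[a, b]`. -/
def Pinched {N : ℕ} (a b : ℝ) (R : Arr N) : Prop :=
  ∀ x y : Fin N → ℝ, a * area2 x y ≤ ev R x y x y ∧ ev R x y x y ≤ b * area2 x y

theorem pull_pinched {M N : ℕ} {v : Fin M → (Fin N → ℝ)} (hv : ONF v) {a b : ℝ} {R : Arr N}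
    (h : Pinched a b R) : Pinched a b (pull v R) := by
  intro c d
  have h1 := h (comb v c) (comb v d)
  rw [ev_comb, area2_eq, dot_comb hv, dot_comb hv, dot_comb hv, ← area2_eq] at h1
  exact h1

theorem area2_nonneg {N : ℕ} (x y : Fin N → ℝ) : 0 ≤ area2 x y := by
  unfold area2
  have := Finset.sum_mul_sq_le_sq_mul_sq Finset.univ x y
  linarith

end Pool.Agent.H69Hopf
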