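import Pool.Agent.Lib.H69.Hopf.Dim4

open Equiv Finset

namespace Pool.Agent.H69Hopf

/-! ### Nonnegative sectional curvature in dimension four -/

/-- Rotation of a frame in the plane of the vectors `i` and `j`. -/
noncomputable def rot {M N : ℕ} (g : Fin M → (Fin N → ℝ)) (i j : Fin M) (c s : ℝ) :
    Fin M → (Fin N → ℝ) :=
  fun k => if k = i then c • g i + s • g j else if k = j then (-s) • g i + c • g j else g k

theorem dot_add_left {N : ℕ} (x x' y : Fin N → ℝ) : dot (x + x') y = dot x y + dot x' y := by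
  unfold dot
  rw [← Finset.sum_add_distrib]
  exact Finset.sum_congr rfl fun i _ => by rw [Pi.add_apply]; ring

theorem dot_smul_left {N : ℕ} (c : ℝ) (x y : Fin N → ℝ) : dot (c • x) y = c * dot x y := by
  unfold dot
  rw [Finset.mul_sum]
  exact Finset.sum_congr rfl fun i _ => by rw [Pi.smul_apply, smul_eq_mul]; ring

theorem dot_add_right {N : ℕ} (x y y' : Fin N → ℝ) : dot x (y + y') = dot x y + dot x y' := by
  rw [dot_comm, dot_add_left, dot_comm y, dot_comm y']

theorem dot_smul_right {N : ℕ} (c : ℝ) (x y : Fin N → ℝ) : dot x (c • y) = c * dot x y := by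
  rw [dot_comm, dot_smul_left, dot_comm]

theorem rot_ONF {M N : ℕ} {g : Fin M → (Fin N → ℝ)} (hg : ONF g) {i j : Fin M} (hij : i ≠ j)
    {c s : ℝ} (h : c ^ 2 + s ^ 2 = 1) : ONF (rot g i j c s) := by
  have hii := hg i i
  have hjj := hg j j
  have h1 := hg i j
  have h2 := hg j i
  rw [if_pos rfl] at hii hjj
  rw [if_neg hij] at h1
  rw [if_neg (Ne.symm hij)] at h2
  intro a b
  unfold rot
  by_cases ha : a = i
  · by_cases hb : b = i
    · rw [if_pos ha, if_pos hb, ha, hb, if_pos rfl]
      simp only [dot_add_left, dot_add_right, dot_smul_left, dot_smul_right, hii, hjj, h1, h2]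
      linarith
    · by_cases hb' : b = j
      · rw [if_pos ha, if_neg hb, if_pos hb', ha, hb', if_neg hij]
        simp only [dot_add_left, dot_add_right, dot_smul_left, dot_smul_right, hii, hjj, h1, h2]
        ring
      · rw [if_pos ha, if_neg hb, if_neg hb', ha, if_neg (Ne.symm hb)]
        have e1 := hg i b
        have e2 := hg j b
        rw [if_neg (Ne.symm hb)] at e1
        rw [if_neg (Ne.symm hb')] at e2
        simp only [dot_add_left, dot_smul_left, e1, e2]
        ring
  · by_cases ha' : a = j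
    · by_cases hb : b = i
      · rw [if_neg ha, if_pos ha', if_pos hb, ha', hb, if_neg (Ne.symm hij)]
        simp only [dot_add_left, dot_add_right, dot_smul_left, dot_smul_right, hii, hjj, h1, h2]
        ring
      · by_cases hb' : b = j
        · rw [if_neg ha, if_pos ha', if_neg hb, if_pos hb', ha', hb', if_pos rfl]
          simp only [dot_add_left, dot_add_right, dot_smul_left, dot_smul_right, hii, hjj, h1, h2]
          linarith
        · rw [if_neg ha, if_pos ha', if_neg hb, if_neg hb', ha', if_neg (Ne.symm hb')]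
          have e1 := hg i b
          have e2 := hg j b
          rw [if_neg (Ne.symm hb)] at e1
          rw [if_neg (Ne.symm hb')] at e2
          simp only [dot_add_left, dot_smul_left, e1, e2]
          ring
    · rw [if_neg ha, if_neg ha']
      have e1 := hg a i
      have e2 := hg a j
      rw [if_neg ha] at e1
      rw [if_neg ha'] at e2
      by_cases hb : b = i
      · rw [if_pos hb, hb, if_neg ha]
        simp only [dot_add_right, dot_smul_right, e1, e2]
        ring
      · by_cases hb' : b = j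
        · rw [if_neg hb, if_pos hb', hb', if_neg ha']
          simp only [dot_add_right, dot_smul_right, e1, e2]
          ring
        · rw [if_neg hb, if_neg hb']
          exact hg a b

theorem critical {A B C : ℝ} (h : ∀ c s : ℝ, c ^ 2 + s ^ 2 = 1 →
    A ≤ c ^ 2 * A + 2 * (c * s) * B + s ^ 2 * C) : B = 0 := by
  have h1 : ∀ t : ℝ, 0 ≤ 2 * t * B + t ^ 2 * (C - A) := by
    intro t
    have hpos : 0 < 1 + t ^ 2 := by positivity
    have hr : Real.sqrt (1 + t ^ 2) ≠ 0 := (Real.sqrt_pos.2 hpos).ne'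
    have hsq : Real.sqrt (1 + t ^ 2) ^ 2 = 1 + t ^ 2 := Real.sq_sqrt hpos.le
    have h2 := h (1 / Real.sqrt (1 + t ^ 2)) (t / Real.sqrt (1 + t ^ 2)) (by
      rw [div_pow, div_pow, hsq]
      field_simp)
    have h3 : (1 / Real.sqrt (1 + t ^ 2)) ^ 2 = 1 / (1 + t ^ 2) := by rw [div_pow, hsq, one_pow]
    have h4 : (t / Real.sqrt (1 + t ^ 2)) ^ 2 = t ^ 2 / (1 + t ^ 2) := by rw [div_pow, hsq]
    have h5 : (1 / Real.sqrt (1 + t ^ 2)) * (t / Real.sqrt (1 + t ^ 2)) = t / (1 + t ^ 2) := by
      rw [div_mul_div_comm, ← sq, hsq, one_mul]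
    rw [h3, h4, h5] at h2
    have h6 : (1 + t ^ 2) * A ≤ A + 2 * t * B + t ^ 2 * C := by
      have h7 := mul_le_mul_of_nonneg_left h2 hpos.le
      have h8 : (1 + t ^ 2) * (1 / (1 + t ^ 2) * A + 2 * (t / (1 + t ^ 2)) * B +
          t ^ 2 / (1 + t ^ 2) * C) = A + 2 * t * B + t ^ 2 * C := by
        field_simp
      rwa [h8] at h7
    linarith
  by_contra hB
  have hD : 0 < |C - A| + 1 := by positivity
  have h2 := h1 (-B / (|C - A| + 1))
  have h3 : (-B / (|C - A| + 1)) ^ 2 * (C - A) ≤ B ^ 2 / (|C - A| + 1) := by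
    rw [div_pow, neg_sq, div_mul_eq_mul_div, div_le_div_iff₀ (by positivity) hD]
    have h4 : C - A ≤ |C - A| + 1 := by linarith [le_abs_self (C - A)]
    have h5 : 0 ≤ B ^ 2 * (|C - A| + 1) := by positivity
    nlinarith [mul_le_mul_of_nonneg_left h4 h5]
  have h4 : 2 * (-B / (|C - A| + 1)) * B = -2 * (B ^ 2 / (|C - A| + 1)) := by ring
  rw [h4] at h2
  have h5 : 0 < B ^ 2 / (|C - A| + 1) := by positivity
  linarith

theorem frames_compact (M N : ℕ) : IsCompact {g : Fin M → (Fin N → ℝ) | ONF g} := by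
  refine Metric.isCompact_of_isClosed_isBounded ?_ ?_
  · have : {g : Fin M → (Fin N → ℝ) | ONF g} =
        ⋂ i, ⋂ j, {g | dot (g i) (g j) = if i = j then 1 else 0} := by
      ext g
      simp [ONF]
    rw [this]
    refine isClosed_iInter fun i => isClosed_iInter fun j => isClosed_eq ?_ continuous_const
    unfold dot
    fun_prop
  · refine (Metric.isBounded_closedBall (x := (0 : Fin M → (Fin N → ℝ))) (r := 1)).subset ?_
    intro g hg
    rw [Metric.mem_closedBall, dist_zero_right]
    refine (pi_norm_le_iff_of_nonneg zero_le_one).2 fun i =>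
      (pi_norm_le_iff_of_nonneg zero_le_one).2 fun k => ?_
    have h := hg i i
    rw [if_pos rfl] at h
    unfold dot at h
    have h1 : g i k * g i k ≤ 1 := by
      rw [← h]
      exact Finset.single_le_sum (f := fun k => g i k * g i k) (fun k _ => mul_self_nonneg _)
        (Finset.mem_univ k)
    rw [Real.norm_eq_abs]
    exact abs_le_one_iff_mul_self_le_one.2 h1

theorem ONF_std (N : ℕ) : ONF (fun i : Fin N => (Pi.single i 1 : Fin N → ℝ)) := by
  intro i j
  show ∑ k, (Pi.single i 1 : Fin N → ℝ) k * (Pi.single j 1 : Fin N → ℝ) k = _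
  rw [Finset.sum_eq_single i]
  · by_cases h : i = j
    · rw [if_pos h, h]; simp
    · rw [if_neg h, Pi.single_eq_same, Pi.single_eq_of_ne h]; ring
  · intro k _ hk
    rw [Pi.single_eq_of_ne hk]; ring
  · intro h
    exact absurd (Finset.mem_univ _) h

theorem milnor (R : Arr (2 * 2)) (hR : IsAlgCurv R)
    (hpos : ∀ x y : Fin (2 * 2) → ℝ, 0 ≤ ev R x y x y) : 0 ≤ gaussBonnet 2 R := by
  let f1 : (Fin 4 → (Fin 4 → ℝ)) → ℝ := fun g => ev R (g 0) (g 1) (g 0) (g 1)
  let f2 : (Fin 4 → (Fin 4 → ℝ)) → ℝ := fun g => ev R (g 0) (g 2) (g 0) (g 2)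
  have hf1 : Continuous f1 := by
    simp only [f1, ev]
    fun_prop
  have hf2 : Continuous f2 := by
    simp only [f2, ev]
    fun_prop
  obtain ⟨g0, hg0, hmin1⟩ := (frames_compact 4 4).exists_isMinOn ⟨_, ONF_std 4⟩ hf1.continuousOn
  have hcomp : IsCompact ({g : Fin 4 → (Fin 4 → ℝ) | ONF g} ∩ {g | f1 g ≤ f1 g0}) :=
    (frames_compact 4 4).inter_right (isClosed_le hf1 continuous_const)
  obtain ⟨g, ⟨hg, hgle⟩, hmin2⟩ := hcomp.exists_isMinOn ⟨g0, hg0, le_refl (f1 g0)⟩ hf2.continuousOn
  have hg : ONF g := hg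
  have hmin1' : ∀ g', ONF g' → f1 g ≤ f1 g' := fun g' hg' => le_trans hgle (hmin1 hg')
  have hmin2' : ∀ g', ONF g' → f1 g' = f1 g → f2 g ≤ f2 g' :=
    fun g' hg' he => hmin2 ⟨hg', by rw [Set.mem_ofPred_eq, he]; exact hgle⟩
  -- the components in the adapted frame
  set Q : Arr (2 * 2) := pull g R with hQ
  have hQa : IsAlgCurv Q := pull_algCurv g hR
  have hGB : gaussBonnet 2 R = gaussBonnet 2 Q := by
    rw [gaussBonnet_eq_mgb, gaussBonnet_eq_mgb]
    have := mgb_pull (fun _ : Fin 2 => R) g
    rw [det_sq_of_ONF hg, one_mul] at this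
    exact this.symm
  have hev : ∀ i j k l : Fin 4, ev R (g i) (g j) (g k) (g l) = Q i j k l := fun _ _ _ _ => rfl
  have hs1 : ∀ a b c d, Q b a c d = - Q a b c d := fun a b c d => hQa.skew b a c d
  have hs2 : ∀ a b c d, Q a b d c = - Q a b c d := fun a b c d => by
    rw [hQa.pair, hs1, hQa.pair c d a b]
  -- first set of critical point equations
  have c1 : Q 0 1 0 2 = 0 := by
    refine critical (A := Q 0 1 0 1) (C := Q 0 2 0 2) fun c s hcs => ?_
    have h := hmin1' (rot g 1 2 c s) (rot_ONF hg (by decide) hcs)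
    simp only [f1, rot] at h
    simp (decide := true) only [if_true, if_false] at h
    simp only [ev_add2, ev_add4, ev_smul2, ev_smul4, hev] at h
    rw [hQa.pair 0 2 0 1] at h
    linarith
  have c2 : Q 0 1 0 3 = 0 := by
    refine critical (A := Q 0 1 0 1) (C := Q 0 3 0 3) fun c s hcs => ?_
    have h := hmin1' (rot g 1 3 c s) (rot_ONF hg (by decide) hcs)
    simp only [f1, rot] at h
    simp (decide := true) only [if_true, if_false] at h
    simp only [ev_add2, ev_add4, ev_smul2, ev_smul4, hev] at h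
    rw [hQa.pair 0 3 0 1] at h
    linarith
  have c3 : Q 0 1 2 1 = 0 := by
    refine critical (A := Q 0 1 0 1) (C := Q 2 1 2 1) fun c s hcs => ?_
    have h := hmin1' (rot g 0 2 c s) (rot_ONF hg (by decide) hcs)
    simp only [f1, rot] at h
    simp (decide := true) only [if_true, if_false] at h
    simp only [ev_add1, ev_add3, ev_smul1, ev_smul3, hev] at h
    rw [hQa.pair 2 1 0 1] at h
    linarith
  have c4 : Q 0 1 3 1 = 0 := by
    refine critical (A := Q 0 1 0 1) (C := Q 3 1 3 1) fun c s hcs => ?_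
    have h := hmin1' (rot g 0 3 c s) (rot_ONF hg (by decide) hcs)
    simp only [f1, rot] at h
    simp (decide := true) only [if_true, if_false] at h
    simp only [ev_add1, ev_add3, ev_smul1, ev_smul3, hev] at h
    rw [hQa.pair 3 1 0 1] at h
    linarith
  -- second set
  have c5 : Q 0 2 0 3 = 0 := by
    refine critical (A := Q 0 2 0 2) (C := Q 0 3 0 3) fun c s hcs => ?_
    have h := hmin2' (rot g 2 3 c s) (rot_ONF hg (by decide) hcs) (by
      simp only [f1, rot]
      simp (decide := true) only [if_true, if_false])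
    simp only [f2, rot] at h
    simp (decide := true) only [if_true, if_false] at h
    simp only [ev_add2, ev_add4, ev_smul2, ev_smul4, hev] at h
    rw [hQa.pair 0 3 0 2] at h
    linarith
  have c6 : Q 0 2 1 2 = 0 := by
    refine critical (A := Q 0 2 0 2) (C := Q 1 2 1 2) fun c s hcs => ?_
    have h := hmin2' (rot g 0 1 c s) (rot_ONF hg (by decide) hcs) (by
      simp only [f1, rot]
      simp (decide := true) only [if_true, if_false]
      simp only [ev_add1, ev_add2, ev_add3, ev_add4, ev_smul1, ev_smul2, ev_smul3, ev_smul4, hev]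
      have z1 : ∀ a c d, Q a a c d = 0 := fun a c d => by
        have := hs1 a a c d
        linarith
      have z2 : ∀ a b c, Q a b c c = 0 := fun a b c => by
        have := hs2 a b c c
        linarith
      simp only [z1, z2, hs1 0 1 0 1, hs1 0 1 1 0, hs2 0 1 0 1]
      have : c ^ 4 + 2 * (c ^ 2 * s ^ 2) + s ^ 4 = 1 := by
        have : c ^ 4 + 2 * (c ^ 2 * s ^ 2) + s ^ 4 = (c ^ 2 + s ^ 2) ^ 2 := by ring
        rw [this, hcs, one_pow]
      linear_combination (Q 0 1 0 1) * this)
    simp only [f2, rot] at h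
    simp (decide := true) only [if_true, if_false] at h
    simp only [ev_add1, ev_add3, ev_smul1, ev_smul3, hev] at h
    rw [hQa.pair 1 2 0 2] at h
    linarith
  rw [hGB, gb2_formula Q hQa, c1, c2, c5, c6]
  have c3' : Q 0 1 1 2 = 0 := by rw [hs2 0 1 2 1, c3, neg_zero]
  have c4' : Q 0 1 1 3 = 0 := by rw [hs2 0 1 3 1, c4, neg_zero]
  rw [c3', c4']
  have p : ∀ i j : Fin 4, 0 ≤ Q i j i j := fun i j => hpos (g i) (g j)
  have h1 := mul_nonneg (p 0 1) (p 2 3)
  have h2 := mul_nonneg (p 0 2) (p 1 3)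
  have h3 := mul_nonneg (p 0 3) (p 1 2)
  nlinarith [sq_nonneg (Q 0 1 2 3), sq_nonneg (Q 0 2 1 3), sq_nonneg (Q 0 3 1 2)]

end Pool.Agent.H69Hopf
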