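import Pool.Agent.Lib.H69.Hopf.Alt

open Equiv Finset

namespace Pool.Agent.H69Hopf

/-- Standard inner product. -/
def dot {N : ℕ} (x y : Fin N → ℝ) : ℝ := ∑ i, x i * y i

theorem dot_comm {N : ℕ} (x y : Fin N → ℝ) : dot x y = dot y x := by
  unfold dot
  exact Finset.sum_congr rfl fun i _ => mul_comm _ _

/-- Orthonormal frames. -/
def ONF {M N : ℕ} (v : Fin M → (Fin N → ℝ)) : Prop :=
  ∀ i j, dot (v i) (v j) = if i = j then 1 else 0

theorem area2_eq {N : ℕ} (x y : Fin N → ℝ) : area2 x y = dot x x * dot y y - dot x y ^ 2 := by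
  unfold area2 dot
  simp only [sq]

theorem inner_eq_dot {N : ℕ} (x y : EuclideanSpace ℝ (Fin N)) :
    inner ℝ x y = dot (x.ofLp) (y.ofLp) := by
  rw [EuclideanSpace.inner_eq_star_dotProduct]
  unfold dot
  simp only [dotProduct, Pi.star_apply, star_trivial]
  exact Finset.sum_congr rfl fun i _ => mul_comm _ _

/-- Orthonormal bases adapted to two vectors. -/
theorem exists_frame {N : ℕ} (x y : Fin (N + 1 + 1) → ℝ) :
    ∃ g : Fin (N + 1 + 1) → (Fin (N + 1 + 1) → ℝ), ONF g ∧
      (∀ i, i ≠ 0 → dot x (g i) = 0) ∧ (∀ i, i ≠ 0 → i ≠ 1 → dot y (g i) = 0) ∧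
      (∀ u w : Fin (N + 1 + 1) → ℝ, dot u w = ∑ i, dot u (g i) * dot w (g i)) := by
  classical
  let f : Fin (N + 1 + 1) → EuclideanSpace ℝ (Fin (N + 1 + 1)) :=
    fun i => if i = 0 then WithLp.toLp 2 x else if i = 1 then WithLp.toLp 2 y else 0
  have hcard : Module.finrank ℝ (EuclideanSpace ℝ (Fin (N + 1 + 1))) =
      Fintype.card (Fin (N + 1 + 1)) := by simp
  let b := InnerProductSpace.gramSchmidtOrthonormalBasis hcard f
  refine ⟨fun i => (b i).ofLp, ?_, ?_, ?_, ?_⟩
  · intro i j
    have h := orthonormal_iff_ite.1 b.orthonormal i j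
    rw [inner_eq_dot] at h
    exact h
  · intro i hi
    have hlt : (0 : Fin (N + 1 + 1)) < i := Fin.pos_of_ne_zero hi
    have h := InnerProductSpace.gramSchmidtOrthonormalBasis_inv_triangular hcard f hlt
    rw [inner_eq_dot, dot_comm] at h
    have hf : f 0 = WithLp.toLp 2 x := by simp [f]
    rw [hf] at h
    exact h
  · intro i hi hi1
    have hlt : (1 : Fin (N + 1 + 1)) < i := by
      have h0 : (0 : Fin (N + 1 + 1)) < i := Fin.pos_of_ne_zero hi
      rw [Fin.lt_def] at h0 ⊢
      have : i.1 ≠ 1 := by
        intro h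
        exact hi1 (Fin.ext h)
      have h0' : 0 < i.1 := h0
      have h1 : ((1 : Fin (N + 1 + 1)) : ℕ) = 1 := rfl
      omega
    have h := InnerProductSpace.gramSchmidtOrthonormalBasis_inv_triangular hcard f hlt
    rw [inner_eq_dot, dot_comm] at h
    have hf : f 1 = WithLp.toLp 2 y := by simp [f]
    rw [hf] at h
    exact h
  · intro u w
    have h := OrthonormalBasis.sum_inner_mul_inner b (WithLp.toLp 2 u) (WithLp.toLp 2 w)
    rw [inner_eq_dot] at h
    have h' : dot u w = ∑ i, inner ℝ (WithLp.toLp 2 u) (b i) * inner ℝ (b i) (WithLp.toLp 2 w) := h.symm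
    rw [h']
    refine Finset.sum_congr rfl fun i _ => ?_
    rw [inner_eq_dot, inner_eq_dot, dot_comm (b i).ofLp]

theorem det_sq_of_ONF {N : ℕ} {g : Fin N → (Fin N → ℝ)} (hg : ONF g) :
    Matrix.det (Matrix.of g) ^ 2 = 1 := by
  have h : Matrix.of g * (Matrix.of g).transpose = 1 := by
    ext i j
    rw [Matrix.mul_apply, Matrix.one_apply]
    exact hg i j
  have h2 := congrArg Matrix.det h
  rw [Matrix.det_mul, Matrix.det_transpose, Matrix.det_one] at h2
  rw [sq]; exact h2

theorem dot_self_nonneg {N : ℕ} (x : Fin N → ℝ) : 0 ≤ dot x x :=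
  Finset.sum_nonneg fun i _ => mul_self_nonneg _

/-- Linear combinations of a frame. -/
noncomputable def comb {M N : ℕ} (v : Fin M → (Fin N → ℝ)) (c : Fin M → ℝ) : Fin N → ℝ :=
  fun k => ∑ i, c i * v i k

theorem dot_comb {M N : ℕ} {v : Fin M → (Fin N → ℝ)} (hv : ONF v) (c d : Fin M → ℝ) :
    dot (comb v c) (comb v d) = dot c d := by
  unfold dot comb
  calc ∑ k, (∑ i, c i * v i k) * (∑ j, d j * v j k)
      = ∑ k, ∑ i, ∑ j, c i * d j * (v i k * v j k) := by
        refine Finset.sum_congr rfl fun k _ => ?_
        rw [Finset.sum_mul_sum]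
        refine Finset.sum_congr rfl fun i _ => Finset.sum_congr rfl fun j _ => ?_
        ring
    _ = ∑ i, ∑ j, c i * d j * ∑ k, v i k * v j k := by
        rw [Finset.sum_comm]
        refine Finset.sum_congr rfl fun i _ => ?_
        rw [Finset.sum_comm]
        refine Finset.sum_congr rfl fun j _ => ?_
        rw [Finset.mul_sum]
    _ = ∑ i, c i * d i := by
        refine Finset.sum_congr rfl fun i _ => ?_
        have : ∀ j, c i * d j * ∑ k, v i k * v j k = if i = j then c i * d j else 0 := by
          intro j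
          have := hv i j
          unfold dot at this
          rw [this]
          split_ifs <;> ring
        simp only [this, Finset.sum_ite_eq, Finset.mem_univ, if_true]

/-- Four-linearity of `ev`, on linear combinations. -/
theorem ev_comb {M N : ℕ} (R : Arr N) (v : Fin M → (Fin N → ℝ)) (c d e f : Fin M → ℝ) :
    ev R (comb v c) (comb v d) (comb v e) (comb v f) = ev (pull v R) c d e f := by
  have h1 : ∀ (c : Fin M → ℝ) (y z w : Fin N → ℝ),
      ev R (comb v c) y z w = ∑ i, c i * ev R (v i) y z w := by
    intro c y z w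
    have hc : comb v c = ∑ i, c i • v i := by
      funext k
      simp [comb]
    rw [hc]
    have : ∀ s : Finset (Fin M), ev R (∑ i ∈ s, c i • v i) y z w =
        ∑ i ∈ s, c i * ev R (v i) y z w := by
      intro s
      induction s using Finset.induction_on with
      | empty => simp [ev]
      | insert a s ha ih => rw [Finset.sum_insert ha, Finset.sum_insert ha, ev_add1, ev_smul1, ih]
    exact this _
  have h2 : ∀ (c : Fin M → ℝ) (x z w : Fin N → ℝ),
      ev R x (comb v c) z w = ∑ i, c i * ev R x (v i) z w := by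
    intro c y z w
    have hc : comb v c = ∑ i, c i • v i := by
      funext k
      simp [comb]
    rw [hc]
    have : ∀ s : Finset (Fin M), ev R y (∑ i ∈ s, c i • v i) z w =
        ∑ i ∈ s, c i * ev R y (v i) z w := by
      intro s
      induction s using Finset.induction_on with
      | empty => simp [ev]
      | insert a s ha ih => rw [Finset.sum_insert ha, Finset.sum_insert ha, ev_add2, ev_smul2, ih]
    exact this _
  have h3 : ∀ (c : Fin M → ℝ) (x y w : Fin N → ℝ),
      ev R x y (comb v c) w = ∑ i, c i * ev R x y (v i) w := by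
    intro c y z w
    have hc : comb v c = ∑ i, c i • v i := by
      funext k
      simp [comb]
    rw [hc]
    have : ∀ s : Finset (Fin M), ev R y z (∑ i ∈ s, c i • v i) w =
        ∑ i ∈ s, c i * ev R y z (v i) w := by
      intro s
      induction s using Finset.induction_on with
      | empty => simp [ev]
      | insert a s ha ih => rw [Finset.sum_insert ha, Finset.sum_insert ha, ev_add3, ev_smul3, ih]
    exact this _
  have h4 : ∀ (c : Fin M → ℝ) (x y z : Fin N → ℝ),
      ev R x y z (comb v c) = ∑ i, c i * ev R x y z (v i) := by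
    intro c y z w
    have hc : comb v c = ∑ i, c i • v i := by
      funext k
      simp [comb]
    rw [hc]
    have : ∀ s : Finset (Fin M), ev R y z w (∑ i ∈ s, c i • v i) =
        ∑ i ∈ s, c i * ev R y z w (v i) := by
      intro s
      induction s using Finset.induction_on with
      | empty => simp [ev]
      | insert a s ha ih => rw [Finset.sum_insert ha, Finset.sum_insert ha, ev_add4, ev_smul4, ih]
    exact this _
  rw [h1]
  simp only [h2, h3, h4]
  unfold ev pull
  simp only [Finset.mul_sum]
  refine Finset.sum_congr rfl fun i _ => Finset.sum_congr rfl fun j _ =>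
    Finset.sum_congr rfl fun k _ => Finset.sum_congr rfl fun l _ => ?_
  unfold ev
  simp only [Finset.mul_sum, Finset.sum_mul]
  refine Finset.sum_congr rfl fun i _ => Finset.sum_congr rfl fun j _ =>
    Finset.sum_congr rfl fun k _ => Finset.sum_congr rfl fun l _ => ?_
  ring

end Pool.Agent.H69Hopf
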