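import Pool.Agent.Lib.H69.Hopf.Frame

open Equiv Finset

namespace Pool.Agent.H69Hopf

/-- Signed product of all factors but the first one. -/
noncomputable def wt {m : ℕ} (T : Fin m → Arr (2 * m + 1 + 1))
    (σ τ : Perm (Fin (2 * m + 1 + 1))) : ℝ :=
  ((Perm.sign σ : ℤ) : ℝ) * ((Perm.sign τ : ℤ) : ℝ) *
    ∏ i : Fin m, T i (σ (fst i).succ.succ) (σ (snd i).succ.succ) (τ (fst i).succ.succ)
      (τ (snd i).succ.succ)

/-- Mixed form with first factor `S`. -/
noncomputable def consM {m : ℕ} (S : Arr (2 * m + 1 + 1)) (T : Fin m → Arr (2 * m + 1 + 1)) : ℝ :=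
  ∑ σ : Perm (Fin (2 * m + 1 + 1)), ∑ τ : Perm (Fin (2 * m + 1 + 1)),
    S (σ 0) (σ 1) (τ 0) (τ 1) * wt T σ τ

theorem mgb_cons {m : ℕ} (S : Arr (2 * m + 1 + 1)) (T : Fin m → Arr (2 * m + 1 + 1)) :
    mgb (m := m + 1) (Fin.cons (α := fun _ => Arr (2 * (m + 1))) S T) = consM S T := by
  unfold mgb consM wt
  refine Finset.sum_congr rfl fun σ _ => Finset.sum_congr rfl fun τ _ => ?_
  rw [Fin.prod_univ_succ]
  simp only [Fin.cons_zero, Fin.cons_succ]
  have h0 : (fst (0 : Fin (m + 1)) : Fin (2 * (m + 1))) = (0 : Fin (2 * m + 1 + 1)) := rfl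
  have h1 : (snd (0 : Fin (m + 1)) : Fin (2 * (m + 1))) = (1 : Fin (2 * m + 1 + 1)) := rfl
  have h2 : ∀ i : Fin m, (fst i.succ : Fin (2 * (m + 1))) = (fst i).succ.succ := by
    intro i
    apply Fin.ext
    simp [fst]; ring
  have h3 : ∀ i : Fin m, (snd i.succ : Fin (2 * (m + 1))) = (snd i).succ.succ := by
    intro i
    apply Fin.ext
    simp [snd]; ring
  simp only [h0, h1, h2, h3]
  rw [← mul_assoc, mul_comm (((Perm.sign σ : ℤ) : ℝ) * ((Perm.sign τ : ℤ) : ℝ)), mul_assoc]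

/-- Cofactor array. -/
noncomputable def cof {m : ℕ} (T : Fin m → Arr (2 * m + 1 + 1)) : Arr (2 * m + 1 + 1) :=
  fun a b c d => ∑ σ : Perm (Fin (2 * m + 1 + 1)), ∑ τ : Perm (Fin (2 * m + 1 + 1)),
    if σ 0 = a ∧ σ 1 = b ∧ τ 0 = c ∧ τ 1 = d then wt T σ τ else 0

theorem consM_eq_cof {m : ℕ} (S : Arr (2 * m + 1 + 1)) (T : Fin m → Arr (2 * m + 1 + 1)) :
    consM S T = ∑ a, ∑ b, ∑ c, ∑ d, S a b c d * cof T a b c d := by
  unfold consM cof
  simp only [Finset.mul_sum]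
  symm
  calc ∑ a, ∑ b, ∑ c, ∑ d, ∑ σ : Perm (Fin (2 * m + 1 + 1)), ∑ τ : Perm (Fin (2 * m + 1 + 1)),
        S a b c d * (if σ 0 = a ∧ σ 1 = b ∧ τ 0 = c ∧ τ 1 = d then wt T σ τ else 0)
      = ∑ p : ((Fin (2 * m + 1 + 1) × Fin (2 * m + 1 + 1)) ×
          (Fin (2 * m + 1 + 1) × Fin (2 * m + 1 + 1))),
          ∑ q : Perm (Fin (2 * m + 1 + 1)) × Perm (Fin (2 * m + 1 + 1)),
          S p.1.1 p.1.2 p.2.1 p.2.2 * (if q.1 0 = p.1.1 ∧ q.1 1 = p.1.2 ∧ q.2 0 = p.2.1 ∧
            q.2 1 = p.2.2 then wt T q.1 q.2 else 0) := by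
        simp only [Fintype.sum_prod_type]
    _ = ∑ q : Perm (Fin (2 * m + 1 + 1)) × Perm (Fin (2 * m + 1 + 1)),
          ∑ p : ((Fin (2 * m + 1 + 1) × Fin (2 * m + 1 + 1)) ×
          (Fin (2 * m + 1 + 1) × Fin (2 * m + 1 + 1))),
          S p.1.1 p.1.2 p.2.1 p.2.2 * (if q.1 0 = p.1.1 ∧ q.1 1 = p.1.2 ∧ q.2 0 = p.2.1 ∧
            q.2 1 = p.2.2 then wt T q.1 q.2 else 0) := Finset.sum_comm
    _ = ∑ q : Perm (Fin (2 * m + 1 + 1)) × Perm (Fin (2 * m + 1 + 1)),
          S (q.1 0) (q.1 1) (q.2 0) (q.2 1) * wt T q.1 q.2 := by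
        refine Finset.sum_congr rfl fun q _ => ?_
        rw [Finset.sum_eq_single ((q.1 0, q.1 1), (q.2 0, q.2 1))]
        · simp
        · intro p _ hp
          rw [if_neg, mul_zero]
          rintro ⟨h1, h2, h3, h4⟩
          apply hp
          rw [h1, h2, h3, h4]
        · intro h
          exact absurd (Finset.mem_univ _) h
    _ = ∑ σ : Perm (Fin (2 * m + 1 + 1)), ∑ τ : Perm (Fin (2 * m + 1 + 1)),
          S (σ 0) (σ 1) (τ 0) (τ 1) * wt T σ τ := by
        rw [Fintype.sum_prod_type]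

theorem zero_ne_one' {n : ℕ} : (0 : Fin (n + 1 + 1)) ≠ 1 := by
  intro h
  have := congrArg Fin.val h
  simp at this

theorem ss_ne_zero {n : ℕ} (i : Fin n) : i.succ.succ ≠ (0 : Fin (n + 1 + 1)) := Fin.succ_ne_zero _

theorem ss_ne_one {n : ℕ} (i : Fin n) : i.succ.succ ≠ (1 : Fin (n + 1 + 1)) := by
  intro h
  have := congrArg Fin.val h
  simp at this

theorem wt_swap_left {m : ℕ} (T : Fin m → Arr (2 * m + 1 + 1))
    (σ τ : Perm (Fin (2 * m + 1 + 1))) : wt T (σ * Equiv.swap 0 1) τ = - wt T σ τ := by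
  unfold wt
  have h : ∀ i : Fin (2 * m), (σ * Equiv.swap 0 1 : Perm (Fin (2 * m + 1 + 1))) i.succ.succ = σ i.succ.succ := by
    intro i
    rw [Perm.mul_apply, Equiv.swap_apply_of_ne_of_ne (ss_ne_zero i) (ss_ne_one i)]
  simp only [h]
  rw [Perm.sign_mul, Perm.sign_swap zero_ne_one']
  push_cast
  ring

theorem wt_swap_right {m : ℕ} (T : Fin m → Arr (2 * m + 1 + 1))
    (σ τ : Perm (Fin (2 * m + 1 + 1))) : wt T σ (τ * Equiv.swap 0 1) = - wt T σ τ := by
  unfold wt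
  have h : ∀ i : Fin (2 * m), (τ * Equiv.swap 0 1 : Perm (Fin (2 * m + 1 + 1))) i.succ.succ = τ i.succ.succ := by
    intro i
    rw [Perm.mul_apply, Equiv.swap_apply_of_ne_of_ne (ss_ne_zero i) (ss_ne_one i)]
  simp only [h]
  rw [Perm.sign_mul, Perm.sign_swap zero_ne_one']
  push_cast
  ring

theorem cof_skew1 {m : ℕ} (T : Fin m → Arr (2 * m + 1 + 1)) (a b c d : Fin (2 * m + 1 + 1)) :
    cof T b a c d = - cof T a b c d := by
  unfold cof
  rw [← Equiv.sum_comp (Equiv.mulRight (Equiv.swap (0 : Fin (2 * m + 1 + 1)) 1)), ← Finset.sum_neg_distrib]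
  refine Finset.sum_congr rfl fun σ _ => ?_
  rw [← Finset.sum_neg_distrib]
  refine Finset.sum_congr rfl fun τ _ => ?_
  simp only [Equiv.coe_mulRight]
  rw [wt_swap_left]
  have e0 : (σ * Equiv.swap 0 1 : Perm (Fin (2 * m + 1 + 1))) 0 = σ 1 := by rw [Perm.mul_apply, Equiv.swap_apply_left]
  have e1 : (σ * Equiv.swap 0 1 : Perm (Fin (2 * m + 1 + 1))) 1 = σ 0 := by rw [Perm.mul_apply, Equiv.swap_apply_right]
  rw [e0, e1]
  by_cases h : σ 0 = a ∧ σ 1 = b ∧ τ 0 = c ∧ τ 1 = d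
  · rw [if_pos h, if_pos ⟨h.2.1, h.1, h.2.2.1, h.2.2.2⟩]
  · rw [if_neg h, if_neg (fun h' => h ⟨h'.2.1, h'.1, h'.2.2.1, h'.2.2.2⟩), neg_zero]

theorem cof_skew2 {m : ℕ} (T : Fin m → Arr (2 * m + 1 + 1)) (a b c d : Fin (2 * m + 1 + 1)) :
    cof T a b d c = - cof T a b c d := by
  unfold cof
  rw [← Finset.sum_neg_distrib]
  refine Finset.sum_congr rfl fun σ _ => ?_
  rw [← Equiv.sum_comp (Equiv.mulRight (Equiv.swap (0 : Fin (2 * m + 1 + 1)) 1)), ← Finset.sum_neg_distrib]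
  refine Finset.sum_congr rfl fun τ _ => ?_
  simp only [Equiv.coe_mulRight]
  rw [wt_swap_right]
  have e0 : (τ * Equiv.swap 0 1 : Perm (Fin (2 * m + 1 + 1))) 0 = τ 1 := by rw [Perm.mul_apply, Equiv.swap_apply_left]
  have e1 : (τ * Equiv.swap 0 1 : Perm (Fin (2 * m + 1 + 1))) 1 = τ 0 := by rw [Perm.mul_apply, Equiv.swap_apply_right]
  rw [e0, e1]
  by_cases h : σ 0 = a ∧ σ 1 = b ∧ τ 0 = c ∧ τ 1 = d
  · rw [if_pos h, if_pos ⟨h.1, h.2.1, h.2.2.2, h.2.2.1⟩]
  · rw [if_neg h, if_neg (fun h' => h ⟨h'.1, h'.2.1, h'.2.2.2, h'.2.2.1⟩), neg_zero]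

/-- Restriction of an array to the indices at least two. -/
def shift2 {N : ℕ} (R : Arr (N + 1 + 1)) : Arr N :=
  fun i j k l => R i.succ.succ j.succ.succ k.succ.succ l.succ.succ

/-- Sum over permutations fixing `0`. -/
theorem sum_perm_fix0 {n : ℕ} (F : Perm (Fin (n + 1)) → ℝ)
    (hF : ∀ σ : Perm (Fin (n + 1)), σ 0 ≠ 0 → F σ = 0) :
    ∑ σ, F σ = ∑ e : Perm (Fin n), F (Equiv.Perm.decomposeFin.symm (0, e)) := by
  rw [← Equiv.sum_comp Equiv.Perm.decomposeFin.symm, Fintype.sum_prod_type,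
    Finset.sum_eq_single (0 : Fin (n + 1))]
  · intro p _ hp
    refine Finset.sum_eq_zero fun e _ => hF _ ?_
    rw [Equiv.Perm.decomposeFin_symm_apply_zero]
    exact hp
  · intro h
    exact absurd (Finset.mem_univ _) h

/-- Extension of a permutation by two fixed points. -/
def ext2 {n : ℕ} (e : Perm (Fin n)) : Perm (Fin (n + 1 + 1)) :=
  Equiv.Perm.decomposeFin.symm (0, Equiv.Perm.decomposeFin.symm (0, e))

theorem ext2_zero {n : ℕ} (e : Perm (Fin n)) : ext2 e 0 = 0 := by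
  unfold ext2
  rw [Equiv.Perm.decomposeFin_symm_apply_zero]

theorem ext2_one {n : ℕ} (e : Perm (Fin n)) : ext2 e 1 = 1 := by
  unfold ext2
  rw [Equiv.Perm.decomposeFin_symm_apply_one, Equiv.Perm.decomposeFin_symm_apply_zero]
  simp

theorem ext2_ss {n : ℕ} (e : Perm (Fin n)) (i : Fin n) : ext2 e i.succ.succ = (e i).succ.succ := by
  unfold ext2
  rw [Equiv.Perm.decomposeFin_symm_apply_succ, Equiv.Perm.decomposeFin_symm_apply_succ]
  simp

theorem ext2_sign {n : ℕ} (e : Perm (Fin n)) : Perm.sign (ext2 e) = Perm.sign e := by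
  unfold ext2
  rw [Equiv.Perm.decomposeFin.symm_sign, Equiv.Perm.decomposeFin.symm_sign]
  simp

theorem sum_perm_fix01 {n : ℕ} (F : Perm (Fin (n + 1 + 1)) → ℝ)
    (hF : ∀ σ : Perm (Fin (n + 1 + 1)), (σ 0 ≠ 0 ∨ σ 1 ≠ 1) → F σ = 0) :
    ∑ σ, F σ = ∑ e : Perm (Fin n), F (ext2 e) := by
  rw [sum_perm_fix0 F (fun σ h => hF σ (Or.inl h)), sum_perm_fix0]
  · rfl
  · intro e he
    refine hF _ (Or.inr ?_)
    rw [Equiv.Perm.decomposeFin_symm_apply_one]
    simp only [Equiv.swap_self, Equiv.refl_apply]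
    intro h
    apply he
    have h1 : (e 0).succ = (0 : Fin (n + 1)).succ := h
    exact Fin.succ_injective _ h1

/-- Reduction of the mixed form when the first factor is triangular. -/
theorem consM_reduce {m : ℕ} (T : Fin m → Arr (2 * m + 1 + 1)) (X Y : Fin (2 * m + 1 + 1) → ℝ)
    (hX : ∀ i, i ≠ 0 → X i = 0) (hY : ∀ i, i ≠ 0 → i ≠ 1 → Y i = 0) :
    consM (fun i j k l => X i * Y j * X k * Y l) T =
      X 0 ^ 2 * Y 1 ^ 2 * mgb (fun i => shift2 (T i)) := by
  unfold consM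
  have hz : ∀ σ : Perm (Fin (2 * m + 1 + 1)), (σ 0 ≠ 0 ∨ σ 1 ≠ 1) → X (σ 0) * Y (σ 1) = 0 := by
    intro σ h
    by_cases h0 : σ 0 = 0
    · have h1 : σ 1 ≠ 1 := by
        rcases h with h | h
        · exact absurd h0 h
        · exact h
      have h2 : σ 1 ≠ 0 := by
        intro h'
        rw [← h0] at h'
        exact zero_ne_one' (σ.injective h').symm
      rw [hY _ h2 h1, mul_zero]
    · rw [hX _ h0, zero_mul]
  rw [sum_perm_fix01]
  · have : ∀ e : Perm (Fin (2 * m)),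
        (∑ τ : Perm (Fin (2 * m + 1 + 1)),
          X (ext2 e 0) * Y (ext2 e 1) * X (τ 0) * Y (τ 1) * wt T (ext2 e) τ) =
        ∑ f : Perm (Fin (2 * m)), X 0 * Y 1 * X 0 * Y 1 * wt T (ext2 e) (ext2 f) := by
      intro e
      rw [sum_perm_fix01]
      · refine Finset.sum_congr rfl fun f _ => ?_
        rw [ext2_zero, ext2_one, ext2_zero, ext2_one]
      · intro τ hτ
        have := hz τ hτ
        calc X (ext2 e 0) * Y (ext2 e 1) * X (τ 0) * Y (τ 1) * wt T (ext2 e) τ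
            = X (ext2 e 0) * Y (ext2 e 1) * (X (τ 0) * Y (τ 1)) * wt T (ext2 e) τ := by ring
          _ = 0 := by rw [this]; ring
    simp only [this]
    unfold mgb
    rw [Finset.mul_sum]
    refine Finset.sum_congr rfl fun e _ => ?_
    rw [Finset.mul_sum]
    refine Finset.sum_congr rfl fun f _ => ?_
    unfold wt shift2
    simp only [ext2_ss, ext2_sign]
    ring
  · intro σ hσ
    refine Finset.sum_eq_zero fun τ _ => ?_
    have := hz σ hσ
    show X (σ 0) * Y (σ 1) * X (τ 0) * Y (τ 1) * wt T σ τ = 0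
    rw [this]; ring

theorem ev_outer {N : ℕ} (x y x' y' : Fin N → ℝ) (a b c d : Fin N → ℝ) :
    ev (fun i j k l => x i * y j * x' k * y' l) a b c d = dot x a * dot y b * dot x' c * dot y' d := by
  have h1 : dot x a * dot y b * dot x' c * dot y' d =
      ∑ i, ∑ j, ∑ k, ∑ l, x i * a i * (y j * b j) * (x' k * c k) * (y' l * d l) := by
    unfold dot
    simp only [← Finset.mul_sum, ← Finset.sum_mul]
  rw [h1]
  unfold ev
  refine Finset.sum_congr rfl fun i _ => Finset.sum_congr rfl fun j _ =>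
    Finset.sum_congr rfl fun k _ => Finset.sum_congr rfl fun l _ => ?_
  ring

theorem ev_cof_eq {m : ℕ} (T : Fin m → Arr (2 * m + 1 + 1)) (x y z w : Fin (2 * m + 1 + 1) → ℝ) :
    ev (cof T) x y z w = consM (fun i j k l => x i * y j * z k * w l) T := by
  rw [consM_eq_cof]
  unfold ev
  refine Finset.sum_congr rfl fun i _ => Finset.sum_congr rfl fun j _ =>
    Finset.sum_congr rfl fun k _ => Finset.sum_congr rfl fun l _ => ?_
  ring

/-- The cofactor array on a pair of vectors is the mixed form on the orthogonal complement. -/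
theorem ev_cof {m : ℕ} (T : Fin m → Arr (2 * m + 1 + 1)) (x y : Fin (2 * m + 1 + 1) → ℝ) :
    ∃ v : Fin (2 * m) → (Fin (2 * m + 1 + 1) → ℝ), ONF v ∧
      ev (cof T) x y x y = area2 x y * mgb (fun i => pull v (T i)) := by
  obtain ⟨g, hg, hx, hy, hpars⟩ := exists_frame x y
  refine ⟨fun i => g i.succ.succ, ?_, ?_⟩
  · intro i j
    rw [hg]
    by_cases h : i = j
    · rw [if_pos h, h, if_pos rfl]
    · rw [if_neg h, if_neg]
      intro h'
      exact h (Fin.succ_injective _ (Fin.succ_injective _ h'))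
  · rw [ev_cof_eq, ← mgb_cons]
    have hinv := mgb_pull (m := m + 1)
      (Fin.cons (α := fun _ => Arr (2 * (m + 1))) (fun i j k l => x i * y j * x k * y l) T) g
    rw [det_sq_of_ONF hg, one_mul] at hinv
    refine hinv.symm.trans ?_
    have hcons : (fun i : Fin (m + 1) => pull g
        (Fin.cons (α := fun _ => Arr (2 * (m + 1))) (fun i j k l => x i * y j * x k * y l) T i)) =
        Fin.cons (α := fun _ => Arr (2 * (m + 1)))
          (fun i j k l => dot x (g i) * dot y (g j) * dot x (g k) * dot y (g l))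
          (fun i => pull g (T i)) := by
      funext i
      refine Fin.cases ?_ (fun i => ?_) i
      · simp only [Fin.cons_zero]
        funext i j k l
        exact ev_outer x y x y (g i) (g j) (g k) (g l)
      · simp only [Fin.cons_succ]
    rw [hcons]
    refine (mgb_cons _ _).trans ?_
    refine (consM_reduce (fun i => pull g (T i)) (fun i => dot x (g i))
      (fun i => dot y (g i)) hx hy).trans ?_
    rw [area2_eq]
    have h1 : dot x x = dot x (g 0) ^ 2 := by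
      rw [hpars x x, Finset.sum_eq_single 0]
      · ring
      · intro b _ hb
        rw [hx b hb]; ring
      · intro h
        exact absurd (Finset.mem_univ _) h
    have h2 : dot x y = dot x (g 0) * dot y (g 0) := by
      rw [hpars x y, Finset.sum_eq_single 0]
      · intro b _ hb
        rw [hx b hb]; ring
      · intro h
        exact absurd (Finset.mem_univ _) h
    have h3 : dot y y = dot y (g 0) ^ 2 + dot y (g 1) ^ 2 := by
      rw [hpars y y, Fin.sum_univ_succ, Fin.sum_univ_succ, Finset.sum_eq_zero]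
      · have : (Fin.succ 0 : Fin (2 * m + 1 + 1)) = 1 := rfl
        rw [this]; ring
      · intro i _
        rw [hy _ (ss_ne_zero i) (ss_ne_one i)]; ring
    rw [h1, h2, h3]
    have h4 : (fun i => shift2 (pull g (T i))) = fun i => pull (fun i => g i.succ.succ) (T i) := rfl
    rw [h4]
    ring

end Pool.Agent.H69Hopf
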