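import Pool.Agent.Lib.H69.Hopf.Sym

open Equiv Finset

namespace Pool.Agent.H69Hopf

/-- The Gauss–Bonnet–Chern integrand in dimension `2 n` is nonnegative for all algebraic curvature
tensors with sectional curvatures between `δ s` and `s`. -/
def PinchT (n : ℕ) (δ : ℝ) : Prop :=
  ∀ P : Arr (2 * n), IsAlgCurv P → ∀ s : ℝ, 0 ≤ s → Pinched (δ * s) s P → 0 ≤ gaussBonnet n P

theorem PinchT.mono {n : ℕ} {δ δ' : ℝ} (h : PinchT n δ) (hd : δ ≤ δ') : PinchT n δ' := by
  intro P hP s hs hp
  refine h P hP s hs fun x y => ⟨le_trans ?_ (hp x y).1, (hp x y).2⟩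
  exact mul_le_mul_of_nonneg_right (mul_le_mul_of_nonneg_right hd hs) (area2_nonneg x y)

/-- A family with values in `{identity, P}`. -/
noncomputable def fam {k N : ℕ} (c : Fin k → Bool) (P : Arr N) : Fin k → Arr N :=
  fun i => if c i then idA N else P

theorem pull_fam {k M N : ℕ} (c : Fin k → Bool) (P : Arr N) {v : Fin M → (Fin N → ℝ)} (hv : ONF v) :
    (fun i => pull v (fam c P i)) = fam c (pull v P) := by
  funext i
  unfold fam
  by_cases h : c i = true
  · simp only [h, if_true]
    exact pull_idA hv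
  · simp only [h]
    rfl

theorem consM_idA {m : ℕ} (T : Fin m → Arr (2 * m + 1 + 1)) :
    consM (idA (2 * m + 1 + 1)) T = 2 * scal (cof T) := by
  rw [consM_eq_cof]
  have h1 : ∀ a b c d : Fin (2 * m + 1 + 1), idA (2 * m + 1 + 1) a b c d * cof T a b c d =
      (if a = c then (if b = d then cof T a b c d else 0) else 0) -
      (if a = d then (if b = c then cof T a b c d else 0) else 0) := by
    intro i j k l
    unfold idA
    split_ifs <;> ring
  simp only [h1, Finset.sum_sub_distrib]
  have e1 : (∑ a, ∑ b, ∑ c, ∑ d, (if a = c then (if b = d then cof T a b c d else 0) else 0)) =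
      ∑ a, ∑ b, cof T a b a b := by
    refine Finset.sum_congr rfl fun i _ => Finset.sum_congr rfl fun j _ => ?_
    rw [Finset.sum_eq_single i]
    · rw [Finset.sum_eq_single j]
      · simp
      · intro l _ hl
        rw [if_pos rfl, if_neg (fun h => hl h.symm)]
      · simp
    · intro k _ hk
      refine Finset.sum_eq_zero fun l _ => ?_
      rw [if_neg (fun h => hk h.symm)]
    · simp
  have e2 : (∑ a, ∑ b, ∑ c, ∑ d, (if a = d then (if b = c then cof T a b c d else 0) else 0)) =
      ∑ a, ∑ b, cof T a b b a := by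
    refine Finset.sum_congr rfl fun i _ => Finset.sum_congr rfl fun j _ => ?_
    rw [Finset.sum_eq_single j]
    · rw [Finset.sum_eq_single i]
      · simp
      · intro l _ hl
        rw [if_neg (fun h => hl h.symm)]
      · simp
    · intro k _ hk
      refine Finset.sum_eq_zero fun l _ => ?_
      by_cases h : i = l
      · rw [if_pos h, if_neg (fun h => hk h.symm)]
      · rw [if_neg h]
    · simp
  rw [e1, e2]
  have e3 : ∑ a, ∑ b, cof T a b b a = - ∑ a, ∑ b, cof T a b a b := by
    rw [← Finset.sum_neg_distrib]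
    refine Finset.sum_congr rfl fun a _ => ?_
    rw [← Finset.sum_neg_distrib]
    refine Finset.sum_congr rfl fun b _ => ?_
    exact cof_skew2 T a b a b
  rw [e3]
  unfold scal
  ring

theorem cof_nonneg {m : ℕ} (T : Fin m → Arr (2 * m + 1 + 1))
    (h : ∀ v : Fin (2 * m) → (Fin (2 * m + 1 + 1) → ℝ), ONF v → 0 ≤ mgb (fun i => pull v (T i)))
    (x y : Fin (2 * m + 1 + 1) → ℝ) : 0 ≤ ev (cof T) x y x y := by
  obtain ⟨v, hv, he⟩ := ev_cof T x y
  rw [he]
  exact mul_nonneg (area2_nonneg x y) (h v hv)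

theorem scal_nonneg {N : ℕ} (G : Arr N) (h : ∀ x y : Fin N → ℝ, 0 ≤ ev G x y x y) : 0 ≤ scal G := by
  unfold scal
  refine Finset.sum_nonneg fun a _ => Finset.sum_nonneg fun b _ => ?_
  have := h (Pi.single a 1) (Pi.single b 1)
  rwa [ev_single] at this

theorem fam_cons {m : ℕ} (c : Fin (m + 1) → Bool) (P : Arr (2 * m + 1 + 1)) :
    (fam c P : Fin (m + 1) → Arr (2 * (m + 1))) =
      Fin.cons (α := fun _ => Arr (2 * (m + 1))) (if c 0 then idA (2 * m + 1 + 1) else P)
        (fam (fun i => c i.succ) P) := by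
  funext i
  refine Fin.cases ?_ (fun i => ?_) i
  · rw [Fin.cons_zero]; rfl
  · rw [Fin.cons_succ]; rfl

/-- Nonnegativity of the mixed forms with at least one identity. -/
theorem mix_step {m : ℕ} {δ s : ℝ}
    (hA : ∀ (P : Arr (2 * m)), IsAlgCurv P → Pinched (δ * s) s P → ∀ c : Fin m → Bool,
      0 ≤ mgb (fam c P))
    (P : Arr (2 * (m + 1))) (hP : IsAlgCurv P) (hp : Pinched (δ * s) s P)
    (c : Fin (m + 1) → Bool) (i₀ : Fin (m + 1)) (hc : c i₀ = true) : 0 ≤ mgb (fam c P) := by
  have h1 : (fun i => fam c P (Equiv.swap 0 i₀ i)) = fam (fun i => c (Equiv.swap 0 i₀ i)) P := rfl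
  rw [← mgb_perm (fam c P) (Equiv.swap 0 i₀), h1, fam_cons]
  have h2 : c (Equiv.swap 0 i₀ 0) = true := by rw [Equiv.swap_apply_left]; exact hc
  simp only [h2, if_true]
  refine le_of_le_of_eq ?_ (mgb_cons _ _).symm
  rw [consM_idA]
  refine mul_nonneg (by norm_num) (scal_nonneg _ (cof_nonneg _ ?_))
  intro v hv
  have h3 := hA (pull v P) (pull_algCurv v hP) (pull_pinched hv hp)
    (fun i => c (Equiv.swap 0 i₀ i.succ))
  have h4 := pull_fam (fun i => c (Equiv.swap 0 i₀ i.succ)) P hv
  rw [← h4] at h3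
  exact h3

theorem mix_all {n : ℕ} {δ s : ℝ} (hs : 0 ≤ s) (H : ∀ k, k ≤ n → PinchT k δ) :
    ∀ k, k ≤ n → ∀ (P : Arr (2 * k)), IsAlgCurv P → Pinched (δ * s) s P → ∀ c : Fin k → Bool,
      0 ≤ mgb (fam c P) := by
  intro k
  induction k with
  | zero =>
    intro hk P hP hp c
    have h := H 0 hk P hP s hs hp
    rw [gaussBonnet_eq_mgb] at h
    have : (fam c P) = (fun _ => P) := by
      funext i
      exact i.elim0
    rw [this]
    exact h
  | succ k ih =>
    intro hk P hP hp c
    by_cases hc : ∃ i₀, c i₀ = true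
    · obtain ⟨i₀, hi⟩ := hc
      exact mix_step (ih (by omega)) P hP hp c i₀ hi
    · have : (fam c P) = (fun _ => P) := by
        funext i
        unfold fam
        rw [if_neg]
        intro h
        exact hc ⟨i, h⟩
      rw [this, ← gaussBonnet_eq_mgb]
      exact H (k + 1) hk P hP s hs hp

/-- Expansion of the integrand of `t • identity + P`. -/
theorem expand {m : ℕ} (P : Arr (2 * m)) (t : ℝ) :
    gaussBonnet m (fun i j k l => t * idA (2 * m) i j k l + P i j k l) =
      ∑ A ∈ (Finset.univ : Finset (Fin m)).powerset, t ^ A.card *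
        mgb (fam (fun i => decide (i ∈ A)) P) := by
  unfold gaussBonnet mgb
  simp only [Finset.prod_add, Finset.mul_sum]
  have hprod : ∀ (A : Finset (Fin m)) (σ τ : Perm (Fin (2 * m))),
      ((∏ i ∈ A, t * idA (2 * m) (σ (fst i)) (σ (snd i)) (τ (fst i)) (τ (snd i))) *
        ∏ i ∈ univ \ A, P (σ (fst i)) (σ (snd i)) (τ (fst i)) (τ (snd i))) =
      t ^ A.card * ∏ i, fam (fun i => decide (i ∈ A)) P i (σ (fst i)) (σ (snd i)) (τ (fst i))
        (τ (snd i)) := by
    intro A σ τ
    rw [Finset.prod_mul_distrib, Finset.prod_const, mul_assoc]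
    congr 1
    rw [← Finset.prod_mul_prod_compl A (fun i => fam (fun i => decide (i ∈ A)) P i (σ (fst i))
      (σ (snd i)) (τ (fst i)) (τ (snd i))), Finset.compl_eq_univ_sdiff]
    congr 1
    · refine Finset.prod_congr rfl fun i hi => ?_
      unfold fam
      simp [hi]
    · refine Finset.prod_congr rfl fun i hi => ?_
      have hi' : i ∉ A := by
        rw [Finset.mem_sdiff] at hi
        exact hi.2
      unfold fam
      simp [hi']
  simp only [hprod]
  calc ∑ σ : Perm (Fin (2 * m)), ∑ τ : Perm (Fin (2 * m)), ∑ A ∈ (Finset.univ : Finset (Fin m)).powerset,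
        ((Perm.sign σ : ℤ) : ℝ) * ((Perm.sign τ : ℤ) : ℝ) * (t ^ A.card *
        ∏ i, fam (fun i => decide (i ∈ A)) P i (σ (fst i)) (σ (snd i)) (τ (fst i)) (τ (snd i)))
      = ∑ σ : Perm (Fin (2 * m)), ∑ A ∈ (Finset.univ : Finset (Fin m)).powerset,
        ∑ τ : Perm (Fin (2 * m)),
        ((Perm.sign σ : ℤ) : ℝ) * ((Perm.sign τ : ℤ) : ℝ) * (t ^ A.card *
        ∏ i, fam (fun i => decide (i ∈ A)) P i (σ (fst i)) (σ (snd i)) (τ (fst i)) (τ (snd i))) :=
        Finset.sum_congr rfl fun σ _ => Finset.sum_comm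
    _ = ∑ A ∈ (Finset.univ : Finset (Fin m)).powerset, ∑ σ : Perm (Fin (2 * m)),
        ∑ τ : Perm (Fin (2 * m)),
        ((Perm.sign σ : ℤ) : ℝ) * ((Perm.sign τ : ℤ) : ℝ) * (t ^ A.card *
        ∏ i, fam (fun i => decide (i ∈ A)) P i (σ (fst i)) (σ (snd i)) (τ (fst i)) (τ (snd i))) :=
        Finset.sum_comm
    _ = _ := by
        refine Finset.sum_congr rfl fun A _ => Finset.sum_congr rfl fun σ _ =>
          Finset.sum_congr rfl fun τ _ => ?_
        ring

theorem scal_eq_of_single {m : ℕ} (P : Arr (2 * (m + 1))) (i : Fin (m + 1)) :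
    mgb (fam (fun j => decide (j ∈ ({i} : Finset (Fin (m + 1))))) P) =
      2 * scal (cof (fun _ : Fin m => (P : Arr (2 * m + 1 + 1)))) := by
  rw [← mgb_perm _ (Equiv.swap 0 i)]
  have h1 : (fun j => fam (fun j => decide (j ∈ ({i} : Finset (Fin (m + 1))))) P (Equiv.swap 0 i j)) =
      fam (fun j => decide (j = 0)) P := by
    funext j
    unfold fam
    congr 1
    simp only [Finset.mem_singleton, decide_eq_true_eq, eq_iff_iff]
    constructor
    · intro h
      have := congrArg (Equiv.swap 0 i) h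
      rw [Equiv.swap_apply_self, Equiv.swap_apply_right] at this
      exact this
    · intro h
      rw [h, Equiv.swap_apply_left]
  rw [h1, fam_cons]
  simp only [decide_true, if_true]
  have h2 : (fam (fun i : Fin m => decide (i.succ = 0)) P : Fin m → Arr (2 * m + 1 + 1)) =
      fun _ => P := by
    funext j
    unfold fam
    rw [if_neg]
    simp
  refine (mgb_cons _ _).trans ?_
  rw [h2, consM_idA]

theorem mgb_eq_ip {m : ℕ} (P : Arr (2 * (m + 1))) :
    mgb (fam (fun j => decide (j ∈ (∅ : Finset (Fin (m + 1))))) P) =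
      ip (cof (fun _ : Fin m => (P : Arr (2 * m + 1 + 1)))) P := by
  have h1 : (fam (fun j => decide (j ∈ (∅ : Finset (Fin (m + 1))))) P) = fun _ => P := by
    funext j
    unfold fam
    simp
  have h2 : ((fun _ => P) : Fin (m + 1) → Arr (2 * (m + 1))) =
      Fin.cons (α := fun _ => Arr (2 * (m + 1))) P (fun _ => P) := by
    funext i
    refine Fin.cases ?_ (fun i => ?_) i
    · rw [Fin.cons_zero]
    · rw [Fin.cons_succ]
  rw [h1, h2]
  refine (mgb_cons _ _).trans ?_
  rw [consM_eq_cof]
  unfold ip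
  refine Finset.sum_congr rfl fun a _ => Finset.sum_congr rfl fun b _ =>
    Finset.sum_congr rfl fun c _ => Finset.sum_congr rfl fun d _ => ?_
  ring

/-- The inductive step. -/
theorem step {n : ℕ} {δ : ℝ} (H : ∀ k, k ≤ n → PinchT k δ) {s t : ℝ} (hs : 0 ≤ s) (ht : 0 ≤ t)
    (hst : s * ((2 * n + 1) - (2 * n + 4) * δ) ≤ 3 * (n + 1) * t)
    (P : Arr (2 * (n + 1))) (hP : IsAlgCurv P) (hp : Pinched (δ * s) s P) :
    0 ≤ gaussBonnet (n + 1) (fun i j k l => t * idA (2 * (n + 1)) i j k l + P i j k l) := by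
  classical
  rw [expand]
  set G : Arr (2 * n + 1 + 1) := cof (fun _ : Fin n => (P : Arr (2 * n + 1 + 1))) with hG
  have hmix := mix_all hs H n le_rfl
  have hGpos : ∀ x y : Fin (2 * n + 1 + 1) → ℝ, 0 ≤ ev G x y x y := by
    refine cof_nonneg _ fun v hv => ?_
    have h := H n le_rfl (pull v P) (pull_algCurv v hP) s hs (pull_pinched hv hp)
    rw [gaussBonnet_eq_mgb] at h
    exact h
  have hscal : 0 ≤ scal G := scal_nonneg G hGpos
  have hkey := key_lower G (P : Arr (2 * n + 1 + 1)) (fun a b c d => cof_skew1 _ a b c d) hGpos hP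
    (δ * s) s (fun x y => (hp x y).1) (fun x y => (hp x y).2)
  -- lower bound by the empty set and singletons
  have hinj : Function.Injective (fun i : Fin (n + 1) => ({i} : Finset (Fin (n + 1)))) :=
    Finset.singleton_injective
  let F : Finset (Fin (n + 1)) → ℝ := fun A => t ^ A.card * mgb (fam (fun i => decide (i ∈ A)) P)
  have hF : ∀ A : Finset (Fin (n + 1)), A.Nonempty → 0 ≤ F A := by
    intro A hA
    obtain ⟨i₀, hi⟩ := hA
    refine mul_nonneg (pow_nonneg ht _) ?_
    exact mix_step hmix P hP hp _ i₀ (by simp [hi])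
  let S : Finset (Finset (Fin (n + 1))) :=
    insert ∅ (Finset.univ.image (fun i : Fin (n + 1) => ({i} : Finset (Fin (n + 1)))))
  have hS : ∑ A ∈ S, F A ≤ ∑ A ∈ (Finset.univ : Finset (Fin (n + 1))).powerset, F A := by
    refine Finset.sum_le_sum_of_subset_of_nonneg ?_ ?_
    · intro A _
      rw [Finset.mem_powerset]
      exact Finset.subset_univ A
    · intro A _ hA
      refine hF A ?_
      rw [Finset.nonempty_iff_ne_empty]
      intro h
      exact hA (by rw [h]; exact Finset.mem_insert_self _ _)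
  refine le_trans ?_ hS
  have hS2 : ∑ A ∈ S, F A = ip G P + (n + 1) * (t * (2 * scal G)) := by
    have hnot : (∅ : Finset (Fin (n + 1))) ∉
        Finset.univ.image (fun i : Fin (n + 1) => ({i} : Finset (Fin (n + 1)))) := by
      simp
    rw [Finset.sum_insert hnot, Finset.sum_image (fun a _ b _ h => hinj h)]
    congr 1
    · show t ^ (∅ : Finset (Fin (n + 1))).card * _ = _
      rw [Finset.card_empty, pow_zero, one_mul]
      exact mgb_eq_ip P
    · have : ∀ i : Fin (n + 1), F {i} = t * (2 * scal G) := by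
        intro i
        show t ^ ({i} : Finset (Fin (n + 1))).card * _ = _
        rw [Finset.card_singleton, pow_one]
        congr 1
        exact scal_eq_of_single P i
      rw [Finset.sum_congr rfl fun i _ => this i]
      simp
  rw [hS2]
  have h1 : ((2 * n + 1 + 1 : ℕ) : ℝ) = 2 * n + 2 := by push_cast; ring
  rw [h1] at hkey
  have h2 : 0 ≤ scal G * (3 * (n + 1) * t - s * ((2 * n + 1) - (2 * n + 4) * δ)) :=
    mul_nonneg hscal (by linarith)
  nlinarith [hkey, h2]

end Pool.Agent.H69Hopf
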