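import Pool.Agent.Lib.H69.Hopf.Main
import Pool.Agent.Lib.H80Hopf.Final

/-!
# The base case in dimension six with pinching constant `1 / 5`
-/

open Equiv Finset

namespace Pool.Agent.H69Hopf

theorem gb_three (P : Arr (2 * 3)) : gaussBonnet 3 P = HopfSix.gaussBonnet P := by
  unfold gaussBonnet HopfSix.gaussBonnet
  refine Finset.sum_congr rfl fun σ _ => Finset.sum_congr rfl fun τ _ => ?_
  rw [Fin.prod_univ_three]
  rfl

theorem ev_eq_sec (P : Arr (2 * 3)) (x y : Fin (2 * 3) → ℝ) :
    ev P x y x y = H80Hopf.sec P x y := by
  unfold ev H80Hopf.sec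
  refine Finset.sum_congr rfl fun i _ => Finset.sum_congr rfl fun j _ =>
    Finset.sum_congr rfl fun k _ => Finset.sum_congr rfl fun l _ => ?_
  ring

theorem pinch3 : PinchT 3 (1 / 5) := by
  intro P hP s hs hp
  rcases hs.eq_or_lt with h0 | hpos
  · have hbase : ∀ k, k ≤ 2 → PinchT k (dlc 4 2) := by
      have h0 : dlc 4 2 = 0 := by
        unfold dlc
        norm_num
      rw [h0]
      intro k hk
      interval_cases k
      · exact pinch0 0
      · exact pinch1
      · exact pinch2
    have h := pinch_family 4 (by norm_num) 2 (by norm_num) (by norm_num) hbase 3 (by norm_num) 3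
      le_rfl
    refine h P hP s hs ?_
    rw [← h0] at hp ⊢
    simpa using hp
  · have hQ : HopfSix.IsAlgCurv (fun i j k l => - P i j k l) := by
      refine ⟨?_, ?_, ?_⟩
      · intro i j k l
        show - P i j k l = - (- P j i k l)
        rw [hP.skew]
      · intro i j k l
        show - P i j k l = - P k l i j
        rw [hP.pair]
      · intro i j k l
        show - P i j k l + - P j k i l + - P k i j l = 0
        have := hP.bianchi i j k l
        linarith
    have hk : 0 < s / 5 := by positivity
    have h := H80Hopf.gaussBonnet_neg_of_pinched (fun i j k l => - P i j k l) hQ (s / 5) hk (by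
      intro x y hx hy hxy
      have hx' : ∑ i, x i ^ 2 = 1 := by
        rw [← hx]
        exact Finset.sum_congr rfl fun i _ => by ring
      have hy' : ∑ i, y i ^ 2 = 1 := by
        rw [← hy]
        exact Finset.sum_congr rfl fun i _ => by ring
      have ha : area2 x y = 1 := by
        unfold area2
        rw [hx', hy', hxy]
        norm_num
      have hs' : H80Hopf.sec (fun i j k l => - P i j k l) x y = - ev P x y x y := by
        rw [ev_eq_sec]
        unfold H80Hopf.sec
        simp only [neg_mul, Finset.sum_neg_distrib]
      obtain ⟨h1, h2⟩ := hp x y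
      rw [ha] at h1 h2
      rw [hs']
      constructor <;> linarith)
    have hg : HopfSix.gaussBonnet (fun i j k l => - P i j k l) = - gaussBonnet 3 P := by
      rw [← gb_three, gb_neg]
      norm_num
    rw [hg] at h
    linarith

/-- Pinching with the improved base. -/
theorem pinch_all6 (n : ℕ) (hn : 3 ≤ n) :
    ∀ k, k ≤ n → PinchT k (dlc (27 / 4) n) := by
  have h5 : dlc (27 / 4) 3 = 1 / 5 := by
    unfold dlc
    norm_num
  have hbase : ∀ k, k ≤ 3 → PinchT k (dlc (27 / 4) 3) := by
    rw [h5]
    intro k hk
    interval_cases k
    · exact pinch0 _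
    · exact pinch1.mono (by norm_num)
    · exact pinch2.mono (by norm_num)
    · exact pinch3
  exact pinch_family (27 / 4) (by norm_num) 3 (by norm_num) (by norm_num) hbase n hn

end Pool.Agent.H69Hopf
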