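import Pool.Agent.Lib.H69.Hopf.Step

open Equiv Finset

namespace Pool.Agent.H69Hopf

/-! ### Dimension four -/

/-- Permutations of four letters. -/
def per4 (a : Fin 4) (b : Fin 3) (c : Fin 2) : Perm (Fin 4) :=
  Equiv.Perm.decomposeFin.symm (a, Equiv.Perm.decomposeFin.symm
    (b, Equiv.Perm.decomposeFin.symm (c, 1)))

/-- Table of values. -/
def tab4 : Fin 4 → Fin 3 → Fin 2 → Fin 4 → Fin 4 :=
  ![![![![0, 1, 2, 3], ![0, 1, 3, 2]], ![![0, 2, 1, 3], ![0, 2, 3, 1]], ![![0, 3, 2, 1], ![0, 3, 1, 2]]], ![![![1, 0, 2, 3], ![1, 0, 3, 2]], ![![1, 2, 0, 3], ![1, 2, 3, 0]], ![![1, 3, 2, 0], ![1, 3, 0, 2]]], ![![![2, 1, 0, 3], ![2, 1, 3, 0]], ![![2, 0, 1, 3], ![2, 0, 3, 1]], ![![2, 3, 0, 1], ![2, 3, 1, 0]]], ![![![3, 1, 2, 0], ![3, 1, 0, 2]], ![![3, 2, 1, 0], ![3, 2, 0, 1]], ![![3, 0, 2, 1], ![3, 0, 1, 2]]]]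
/-- Table of signs. -/
def sg4 : Fin 4 → Fin 3 → Fin 2 → ℤ :=
  ![![![1, -1], ![-1, 1], ![-1, 1]], ![![-1, 1], ![1, -1], ![1, -1]], ![![-1, 1], ![1, -1], ![1, -1]], ![![-1, 1], ![1, -1], ![1, -1]]]

theorem per4_apply : ∀ a b c i, per4 a b c i = tab4 a b c i := by decide
theorem per4_sign : ∀ a b c, ((Perm.sign (per4 a b c) : ℤˣ) : ℤ) = sg4 a b c := by decide

theorem sum_perm4 (F : Fin 4 → Fin 4 → Fin 4 → Fin 4 → ℝ) :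
    ∑ σ : Perm (Fin 4), ((Perm.sign σ : ℤ) : ℝ) * F (σ 0) (σ 1) (σ 2) (σ 3) =
      (F 0 1 2 3 - F 0 1 3 2 - F 1 0 2 3 + F 1 0 3 2) +
      (F 2 3 0 1 - F 2 3 1 0 - F 3 2 0 1 + F 3 2 1 0) -
      (F 0 2 1 3 - F 0 2 3 1 - F 2 0 1 3 + F 2 0 3 1) -
      (F 1 3 0 2 - F 1 3 2 0 - F 3 1 0 2 + F 3 1 2 0) +
      (F 0 3 1 2 - F 0 3 2 1 - F 3 0 1 2 + F 3 0 2 1) +
      (F 1 2 0 3 - F 1 2 3 0 - F 2 1 0 3 + F 2 1 3 0) := by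
  have h : (Finset.univ : Finset (Perm (Fin 4))) =
     ((Finset.univ : Finset (Fin 4 × Fin 3 × Fin 2)).image (fun q => per4 q.1 q.2.1 q.2.2)) := by
    decide
  rw [h, Finset.sum_image (by decide)]
  simp only [per4_apply, per4_sign, Fintype.sum_prod_type, Fin.sum_univ_four, Fin.sum_univ_three,
    Fin.sum_univ_two]
  simp [tab4, sg4]
  ring

theorem sum_perm4' (F : Fin 4 → Fin 4 → Fin 4 → Fin 4 → ℝ)
    (h1 : ∀ a b c d, F b a c d = - F a b c d) (h2 : ∀ a b c d, F a b d c = - F a b c d) :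
    ∑ σ : Perm (Fin 4), ((Perm.sign σ : ℤ) : ℝ) * F (σ 0) (σ 1) (σ 2) (σ 3) =
      4 * (F 0 1 2 3 + F 2 3 0 1 - F 0 2 1 3 - F 1 3 0 2 + F 0 3 1 2 + F 1 2 0 3) := by
  rw [sum_perm4]
  rw [h2 0 1 2 3, h1 0 1 2 3, h1 0 1 3 2, h2 0 1 2 3, h2 2 3 0 1, h1 2 3 0 1, h1 2 3 1 0,
    h2 2 3 0 1, h2 0 2 1 3, h1 0 2 1 3, h1 0 2 3 1, h2 0 2 1 3, h2 1 3 0 2, h1 1 3 0 2, h1 1 3 2 0,
    h2 1 3 0 2, h2 0 3 1 2, h1 0 3 1 2, h1 0 3 2 1, h2 0 3 1 2, h2 1 2 0 3, h1 1 2 0 3,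
    h1 1 2 3 0, h2 1 2 0 3]
  ring

theorem gb2_formula (R : Arr (2 * 2)) (hR : IsAlgCurv R) :
    gaussBonnet 2 R = 32 * (R 0 1 0 1 * R 2 3 2 3 + R 0 1 2 3 ^ 2 + R 0 2 0 2 * R 1 3 1 3 +
      R 0 2 1 3 ^ 2 + R 0 3 0 3 * R 1 2 1 2 + R 0 3 1 2 ^ 2
      - 2 * R 0 1 0 2 * R 2 3 1 3 - 2 * R 0 1 1 3 * R 0 2 2 3 + 2 * R 0 1 0 3 * R 2 3 1 2
      + 2 * R 0 1 1 2 * R 0 3 2 3 - 2 * R 0 2 0 3 * R 1 3 1 2 - 2 * R 0 2 1 2 * R 0 3 1 3) := by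
  have hs : ∀ a b c d, R b a c d = - R a b c d := fun a b c d => hR.skew b a c d
  have hs2 : ∀ a b c d, R a b d c = - R a b c d := fun a b c d => by
    rw [hR.pair, hs, hR.pair c d a b]
  have hprod : ∀ σ τ : Perm (Fin (2 * 2)), (∏ i : Fin 2, R (σ (fst i)) (σ (snd i)) (τ (fst i)) (τ (snd i))) =
      R (σ 0) (σ 1) (τ 0) (τ 1) * R (σ 2) (σ 3) (τ 2) (τ 3) := by
    intro σ τ
    rw [Fin.prod_univ_two]
    rfl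
  unfold gaussBonnet
  simp only [hprod]
  have hin : ∀ a b c d : Fin 4, (∑ τ : Perm (Fin 4), ((Perm.sign τ : ℤ) : ℝ) *
      (R a b (τ 0) (τ 1) * R c d (τ 2) (τ 3))) =
      4 * (R a b 0 1 * R c d 2 3 + R a b 2 3 * R c d 0 1 - R a b 0 2 * R c d 1 3
        - R a b 1 3 * R c d 0 2 + R a b 0 3 * R c d 1 2 + R a b 1 2 * R c d 0 3) := by
    intro a b c d
    exact sum_perm4' (fun i j k l => R a b i j * R c d k l)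
      (fun i j k l => by rw [hs2 a b i j]; ring) (fun i j k l => by rw [hs2 c d k l]; ring)
  have h1 : (∑ σ : Perm (Fin (2 * 2)), ∑ τ : Perm (Fin (2 * 2)), ((Perm.sign σ : ℤ) : ℝ) *
      ((Perm.sign τ : ℤ) : ℝ) * (R (σ 0) (σ 1) (τ 0) (τ 1) * R (σ 2) (σ 3) (τ 2) (τ 3))) =
      ∑ σ : Perm (Fin 4), ((Perm.sign σ : ℤ) : ℝ) *
      (fun a b c d : Fin 4 => 4 * (R a b 0 1 * R c d 2 3 + R a b 2 3 * R c d 0 1
        - R a b 0 2 * R c d 1 3 - R a b 1 3 * R c d 0 2 + R a b 0 3 * R c d 1 2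
        + R a b 1 2 * R c d 0 3)) (σ 0) (σ 1) (σ 2) (σ 3) := by
    refine Finset.sum_congr rfl fun σ _ => ?_
    simp only [← hin, Finset.mul_sum]
    refine Finset.sum_congr rfl fun τ _ => ?_
    ring
  refine h1.trans ((sum_perm4' (fun a b c d : Fin 4 => 4 * (R a b 0 1 * R c d 2 3 +
        R a b 2 3 * R c d 0 1
        - R a b 0 2 * R c d 1 3 - R a b 1 3 * R c d 0 2 + R a b 0 3 * R c d 1 2
        + R a b 1 2 * R c d 0 3)) ?_ ?_).trans ?_)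
  · intro a b c d
    simp only [hs a b]
    ring
  · intro a b c d
    simp only [hs c d]
    ring
  · rw [hR.pair 2 3 0 1, hR.pair 1 3 0 2, hR.pair 1 2 0 3, hR.pair 0 2 0 1, hR.pair 1 3 0 1,
      hR.pair 0 3 0 1, hR.pair 1 2 0 1, hR.pair 2 3 0 2, hR.pair 2 3 0 3, hR.pair 0 3 0 2,
      hR.pair 1 2 0 2, hR.pair 1 3 0 3, hR.pair 1 3 2 3, hR.pair 1 2 2 3, hR.pair 1 2 1 3]
    ring

end Pool.Agent.H69Hopf
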