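import Pool.Agent.Lib.H69.Hopf.Frame

open Finset

namespace Pool.Agent.H69Hopf

/-- Traces of products of positive semidefinite matrices are nonnegative. -/
theorem trace_nonneg {N : ℕ} (A B : Fin N → Fin N → ℝ) (hs : ∀ i j, A i j = A j i)
    (hA : ∀ z : Fin N → ℝ, 0 ≤ ∑ i, ∑ j, A i j * z i * z j)
    (hB : ∀ z : Fin N → ℝ, 0 ≤ ∑ i, ∑ j, B i j * z i * z j) :
    0 ≤ ∑ i, ∑ j, A i j * B i j := by
  have hpsd : Matrix.PosSemidef (Matrix.of A) := by
    refine Matrix.PosSemidef.of_dotProduct_mulVec_nonneg ?_ ?_
    · ext i j
      simp [hs i j]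
    · intro x
      have := hA x
      simp only [star_trivial, dotProduct, Matrix.mulVec, Matrix.of_apply, Finset.mul_sum]
      refine this.trans_eq ?_
      refine Finset.sum_congr rfl fun i _ => Finset.sum_congr rfl fun j _ => ?_
      ring
  obtain ⟨m, v, hv⟩ := Matrix.posSemidef_iff_eq_sum_vecMulVec.1 hpsd
  have hAv : ∀ i j, A i j = ∑ k, v k i * v k j := by
    intro i j
    have := congrFun (congrFun hv i) j
    rw [Matrix.of_apply, Matrix.sum_apply] at this
    rw [this]
    simp [Matrix.vecMulVec_apply]
  have : ∑ i, ∑ j, A i j * B i j = ∑ k, ∑ i, ∑ j, B i j * v k i * v k j := by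
    calc ∑ i, ∑ j, A i j * B i j = ∑ i, ∑ j, ∑ k, B i j * v k i * v k j := by
          refine Finset.sum_congr rfl fun i _ => Finset.sum_congr rfl fun j _ => ?_
          rw [hAv, Finset.sum_mul]
          refine Finset.sum_congr rfl fun k _ => ?_
          ring
      _ = ∑ k, ∑ i, ∑ j, B i j * v k i * v k j := by
          have : ∀ i, (∑ j, ∑ k, B i j * v k i * v k j) = ∑ k, ∑ j, B i j * v k i * v k j :=
            fun i => Finset.sum_comm
          simp only [this]
          rw [Finset.sum_comm]
  rw [this]
  exact Finset.sum_nonneg fun k _ => hB (v k)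

/-- Sign vectors. -/
def sv {N : ℕ} (ε : Fin N → Bool) : Fin N → ℝ := fun i => if ε i then 1 else -1

theorem sv_sq {N : ℕ} (ε : Fin N → Bool) (i : Fin N) : sv ε i * sv ε i = 1 := by
  unfold sv
  split_ifs <;> norm_num

theorem sum_flip {N : ℕ} (a : Fin N) (f : (Fin N → ℝ) → ℝ)
    (hf : ∀ ε : Fin N → Bool, f (sv (Function.update ε a (!(ε a)))) = f (sv ε)) :
    ∑ ε : Fin N → Bool, sv ε a * f (sv ε) = 0 := by
  have hinv : Function.Involutive (fun ε : Fin N → Bool => Function.update ε a (!(ε a))) := by
    intro ε
    funext i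
    by_cases h : i = a
    · subst h; simp
    · simp [Function.update_of_ne h]
  let e : Equiv.Perm (Fin N → Bool) := hinv.toPerm
  have h := Equiv.sum_comp e (fun ε : Fin N → Bool => sv ε a * f (sv ε))
  have h2 : ∀ ε : Fin N → Bool, sv (e ε) a * f (sv (e ε)) =
      - (sv ε a * f (sv ε)) := by
    intro ε
    have h3 : e ε = Function.update ε a (!(ε a)) := rfl
    rw [h3, hf ε]
    have h4 : sv (Function.update ε a (!(ε a))) a = - sv ε a := by
      unfold sv
      rw [Function.update_self]
      cases ε a <;> simp
    rw [h4]; ring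
  simp only [h2, Finset.sum_neg_distrib] at h
  linarith

theorem sv_update_ne {N : ℕ} (ε : Fin N → Bool) (a b : Fin N) (h : b ≠ a) (x : Bool) :
    sv (Function.update ε a x) b = sv ε b := by
  unfold sv
  rw [Function.update_of_ne h]

theorem moment2 {N : ℕ} (a b : Fin N) :
    ∑ ε : Fin N → Bool, sv ε a * sv ε b = 2 ^ N * (if a = b then 1 else 0) := by
  by_cases h : a = b
  · subst h
    simp [sv_sq]
  · rw [if_neg h, mul_zero]
    exact sum_flip a (fun x => x b) (fun ε => sv_update_ne ε a b (fun h' => h h'.symm) _)

theorem moment4 {N : ℕ} (a b c d : Fin N) :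
    ∑ ε : Fin N → Bool, sv ε a * sv ε b * sv ε c * sv ε d =
      2 ^ N * ((if a = b then 1 else 0) * (if c = d then 1 else 0) +
        (if a = c then 1 else 0) * (if b = d then 1 else 0) +
        (if a = d then 1 else 0) * (if b = c then 1 else 0) -
        2 * ((if a = b then 1 else 0) * (if a = c then 1 else 0) * (if a = d then 1 else 0))) := by
  by_cases hab : a = b
  · subst hab
    have : ∀ ε : Fin N → Bool, sv ε a * sv ε a * sv ε c * sv ε d = sv ε c * sv ε d := by
      intro ε
      rw [sv_sq, one_mul]
    simp only [this]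
    rw [moment2]
    congr 1
    by_cases h1 : a = c
    · subst h1
      by_cases h2 : a = d
      · subst h2; norm_num
      · simp [h2]
    · by_cases h2 : a = d
      · subst h2; simp [h1]
      · simp [h1, h2]
  · by_cases hac : a = c
    · subst hac
      have : ∀ ε : Fin N → Bool, sv ε a * sv ε b * sv ε a * sv ε d = sv ε b * sv ε d := by
        intro ε
        calc sv ε a * sv ε b * sv ε a * sv ε d = (sv ε a * sv ε a) * (sv ε b * sv ε d) := by ring
          _ = _ := by rw [sv_sq, one_mul]
      simp only [this]
      rw [moment2]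
      congr 1
      have hba : b ≠ a := fun h => hab h.symm
      simp [hab, hba]
    · by_cases had : a = d
      · subst had
        have : ∀ ε : Fin N → Bool, sv ε a * sv ε b * sv ε c * sv ε a = sv ε b * sv ε c := by
          intro ε
          calc sv ε a * sv ε b * sv ε c * sv ε a = (sv ε a * sv ε a) * (sv ε b * sv ε c) := by ring
            _ = _ := by rw [sv_sq, one_mul]
        simp only [this]
        rw [moment2]
        congr 1
        simp [hab, hac]
      · have h0 : (2 : ℝ) ^ N * ((if a = b then 1 else 0) * (if c = d then 1 else 0) +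
            (if a = c then 1 else 0) * (if b = d then 1 else 0) +
            (if a = d then 1 else 0) * (if b = c then 1 else 0) -
            2 * ((if a = b then 1 else 0) * (if a = c then 1 else 0) *
              (if a = d then 1 else 0))) = 0 := by
          simp [hab, hac, had]
        rw [h0]
        have := sum_flip a (fun x => x b * x c * x d) (fun ε => by
          rw [sv_update_ne ε a b (fun h => hab h.symm), sv_update_ne ε a c (fun h => hac h.symm),
            sv_update_ne ε a d (fun h => had h.symm)])
        rw [← this]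
        refine Finset.sum_congr rfl fun ε _ => ?_
        ring

/-- Cubature formula for quartic forms. -/
theorem cubature {N : ℕ} (K : Fin N → Fin N → Fin N → Fin N → ℝ) :
    (∑ ε : Fin N → Bool, ∑ a, ∑ b, ∑ c, ∑ d, K a b c d * (sv ε a * sv ε b * sv ε c * sv ε d)) +
      2 ^ N * (2 * ∑ i, K i i i i) =
    2 ^ N * ((∑ a, ∑ b, K a a b b) + (∑ a, ∑ b, K a b a b) + (∑ a, ∑ b, K a b b a)) := by
  have h1 : (∑ ε : Fin N → Bool, ∑ a, ∑ b, ∑ c, ∑ d,
        K a b c d * (sv ε a * sv ε b * sv ε c * sv ε d)) =
      ∑ a, ∑ b, ∑ c, ∑ d, K a b c d * (2 ^ N * ((if a = b then 1 else 0) * (if c = d then 1 else 0) +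
        (if a = c then 1 else 0) * (if b = d then 1 else 0) +
        (if a = d then 1 else 0) * (if b = c then 1 else 0) -
        2 * ((if a = b then 1 else 0) * (if a = c then 1 else 0) * (if a = d then 1 else 0)))) := by
    rw [Finset.sum_comm]
    refine Finset.sum_congr rfl fun a _ => ?_
    rw [Finset.sum_comm]
    refine Finset.sum_congr rfl fun b _ => ?_
    rw [Finset.sum_comm]
    refine Finset.sum_congr rfl fun c _ => ?_
    rw [Finset.sum_comm]
    refine Finset.sum_congr rfl fun d _ => ?_
    rw [← Finset.mul_sum, moment4]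
  rw [h1]
  have h2 : ∀ a b c d : Fin N, K a b c d * (2 ^ N * ((if a = b then 1 else 0) *
        (if c = d then 1 else 0) + (if a = c then 1 else 0) * (if b = d then 1 else 0) +
        (if a = d then 1 else 0) * (if b = c then 1 else 0) -
        2 * ((if a = b then 1 else 0) * (if a = c then 1 else 0) * (if a = d then 1 else 0)))) =
      2 ^ N * (if a = b then (if c = d then K a b c d else 0) else 0) +
      2 ^ N * (if a = c then (if b = d then K a b c d else 0) else 0) +
      2 ^ N * (if a = d then (if b = c then K a b c d else 0) else 0) -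
      2 ^ N * (2 * (if a = b then (if a = c then (if a = d then K a b c d else 0) else 0)
        else 0)) := by
    intro a b c d
    split_ifs <;> ring
  simp only [h2, Finset.sum_add_distrib, Finset.sum_sub_distrib, ← Finset.mul_sum]
  have e1 : (∑ a, ∑ b, ∑ c, ∑ d, (if a = b then (if c = d then K a b c d else 0) else 0)) =
      ∑ a, ∑ b, K a a b b := by
    refine Finset.sum_congr rfl fun a _ => ?_
    rw [Finset.sum_eq_single a]
    · refine Finset.sum_congr rfl fun c _ => ?_
      rw [Finset.sum_eq_single c]
      · simp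
      · intro d _ hd
        rw [if_pos rfl, if_neg (fun h => hd h.symm)]
      · simp
    · intro b _ hb
      refine Finset.sum_eq_zero fun c _ => Finset.sum_eq_zero fun d _ => ?_
      rw [if_neg (fun h => hb h.symm)]
    · simp
  have e2 : (∑ a, ∑ b, ∑ c, ∑ d, (if a = c then (if b = d then K a b c d else 0) else 0)) =
      ∑ a, ∑ b, K a b a b := by
    refine Finset.sum_congr rfl fun a _ => Finset.sum_congr rfl fun b _ => ?_
    rw [Finset.sum_eq_single a]
    · rw [Finset.sum_eq_single b]
      · simp
      · intro d _ hd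
        rw [if_pos rfl, if_neg (fun h => hd h.symm)]
      · simp
    · intro c _ hc
      refine Finset.sum_eq_zero fun d _ => ?_
      rw [if_neg (fun h => hc h.symm)]
    · simp
  have e3 : (∑ a, ∑ b, ∑ c, ∑ d, (if a = d then (if b = c then K a b c d else 0) else 0)) =
      ∑ a, ∑ b, K a b b a := by
    refine Finset.sum_congr rfl fun a _ => Finset.sum_congr rfl fun b _ => ?_
    rw [Finset.sum_eq_single b]
    · rw [Finset.sum_eq_single a]
      · simp
      · intro d _ hd
        rw [if_neg (fun h => hd h.symm)]
      · simp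
    · intro c _ hc
      refine Finset.sum_eq_zero fun d _ => ?_
      by_cases h : a = d
      · rw [if_pos h, if_neg (fun h => hc h.symm)]
      · rw [if_neg h]
    · simp
  have e4 : (∑ a, ∑ b, ∑ c, ∑ d, (if a = b then (if a = c then (if a = d then K a b c d else 0)
      else 0) else 0)) = ∑ a, K a a a a := by
    refine Finset.sum_congr rfl fun a _ => ?_
    rw [Finset.sum_eq_single a]
    · rw [Finset.sum_eq_single a]
      · rw [Finset.sum_eq_single a]
        · simp
        · intro d _ hd
          rw [if_pos rfl, if_pos rfl, if_neg (fun h => hd h.symm)]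
        · simp
      · intro c _ hc
        refine Finset.sum_eq_zero fun d _ => ?_
        rw [if_pos rfl, if_neg (fun h => hc h.symm)]
      · simp
    · intro b _ hb
      refine Finset.sum_eq_zero fun c _ => Finset.sum_eq_zero fun d _ => ?_
      rw [if_neg (fun h => hb h.symm)]
    · simp
  rw [e1, e2, e3, e4]
  ring

end Pool.Agent.H69Hopf
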