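import Pool.Agent.Lib.H69.Hopf.Base6

/-!
# Strict positivity at the critical pinching
-/

open Equiv Finset

namespace Pool.Agent.H69Hopf

/-- Strict version of `PinchT`. -/
def PinchS (n : ℕ) (δ : ℝ) : Prop :=
  ∀ P : Arr (2 * n), IsAlgCurv P → ∀ s : ℝ, 0 < s → Pinched (δ * s) s P → 0 < gaussBonnet n P

/-- The inductive step with a positive lower bound. -/
theorem step_lower {n : ℕ} (hn : 1 ≤ n) {δ : ℝ} (H : ∀ k, k ≤ n → PinchT k δ) {s t : ℝ}
    (hs : 0 ≤ s) (ht : 0 ≤ t)
    (hst : s * ((2 * n + 1) - (2 * n + 4) * δ) ≤ 3 * (n + 1) * t)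
    (P : Arr (2 * (n + 1))) (hP : IsAlgCurv P) (hp : Pinched (δ * s) s P) :
    t ^ (n + 1) * mgb (fun _ : Fin (n + 1) => idA (2 * (n + 1))) ≤
      gaussBonnet (n + 1) (fun i j k l => t * idA (2 * (n + 1)) i j k l + P i j k l) := by
  classical
  rw [expand]
  set G : Arr (2 * n + 1 + 1) := cof (fun _ : Fin n => (P : Arr (2 * n + 1 + 1))) with hG
  have hmix := mix_all hs H n le_rfl
  have hGpos : ∀ x y : Fin (2 * n + 1 + 1) → ℝ, 0 ≤ ev G x y x y := by
    refine cof_nonneg _ fun v hv => ?_
    have h := H n le_rfl (pull v P) (pull_algCurv v hP) s hs (pull_pinched hv hp)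
    rw [gaussBonnet_eq_mgb] at h
    exact h
  have hscal : 0 ≤ scal G := scal_nonneg G hGpos
  have hkey := key_lower G (P : Arr (2 * n + 1 + 1)) (fun a b c d => cof_skew1 _ a b c d) hGpos hP
    (δ * s) s (fun x y => (hp x y).1) (fun x y => (hp x y).2)
  have hinj : Function.Injective (fun i : Fin (n + 1) => ({i} : Finset (Fin (n + 1)))) :=
    Finset.singleton_injective
  let F : Finset (Fin (n + 1)) → ℝ := fun A => t ^ A.card * mgb (fam (fun i => decide (i ∈ A)) P)
  have hF : ∀ A : Finset (Fin (n + 1)), A.Nonempty → 0 ≤ F A := by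
    intro A hA
    obtain ⟨i₀, hi⟩ := hA
    refine mul_nonneg (pow_nonneg ht _) ?_
    exact mix_step hmix P hP hp _ i₀ (by simp [hi])
  let S : Finset (Finset (Fin (n + 1))) :=
    insert ∅ (Finset.univ.image (fun i : Fin (n + 1) => ({i} : Finset (Fin (n + 1)))))
  have huniv : (Finset.univ : Finset (Fin (n + 1))) ∉ S := by
    intro h
    rcases Finset.mem_insert.1 h with h | h
    · have := congrArg Finset.card h
      simp at this
    · obtain ⟨i, _, hi⟩ := Finset.mem_image.1 h
      have := congrArg Finset.card hi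
      simp at this
      omega
  have hS : ∑ A ∈ insert (Finset.univ : Finset (Fin (n + 1))) S, F A ≤
      ∑ A ∈ (Finset.univ : Finset (Fin (n + 1))).powerset, F A := by
    refine Finset.sum_le_sum_of_subset_of_nonneg ?_ ?_
    · intro A _
      rw [Finset.mem_powerset]
      exact Finset.subset_univ A
    · intro A _ hA
      refine hF A ?_
      rw [Finset.nonempty_iff_ne_empty]
      intro h
      exact hA (by rw [h]; exact Finset.mem_insert_of_mem (Finset.mem_insert_self _ _))
  refine le_trans ?_ hS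
  rw [Finset.sum_insert huniv]
  have hS2 : ∑ A ∈ S, F A = ip G P + (n + 1) * (t * (2 * scal G)) := by
    have hnot : (∅ : Finset (Fin (n + 1))) ∉
        Finset.univ.image (fun i : Fin (n + 1) => ({i} : Finset (Fin (n + 1)))) := by
      simp
    rw [Finset.sum_insert hnot, Finset.sum_image (fun a _ b _ h => hinj h)]
    congr 1
    · show t ^ (∅ : Finset (Fin (n + 1))).card * _ = _
      rw [Finset.card_empty, pow_zero, one_mul]
      exact mgb_eq_ip P
    · have : ∀ i : Fin (n + 1), F {i} = t * (2 * scal G) := by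
        intro i
        show t ^ ({i} : Finset (Fin (n + 1))).card * _ = _
        rw [Finset.card_singleton, pow_one]
        congr 1
        exact scal_eq_of_single P i
      rw [Finset.sum_congr rfl fun i _ => this i]
      simp
  rw [hS2]
  have h1 : ((2 * n + 1 + 1 : ℕ) : ℝ) = 2 * n + 2 := by push_cast; ring
  rw [h1] at hkey
  have h2 : 0 ≤ scal G * (3 * (n + 1) * t - s * ((2 * n + 1) - (2 * n + 4) * δ)) :=
    mul_nonneg hscal (by linarith)
  have h3 : F (Finset.univ : Finset (Fin (n + 1))) =
      t ^ (n + 1) * mgb (fun _ : Fin (n + 1) => idA (2 * (n + 1))) := by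
    show t ^ (Finset.univ : Finset (Fin (n + 1))).card * _ = _
    rw [Finset.card_univ, Fintype.card_fin]
    congr 2
    funext i
    unfold fam
    simp
  rw [h3]
  have h4 : 0 ≤ ip G P + (n + 1) * (t * (2 * scal G)) := by
    nlinarith [hkey, h2]
  linarith

/-- The strict recursion for the pinching constants. -/
theorem PinchS.succ {n : ℕ} (hn : 1 ≤ n) {δ δ' : ℝ} (H : ∀ k, k ≤ n → PinchT k δ) (hδ : δ < 1)
    (hδ' : δ < δ') (h1 : δ' ≤ 1)
    (hrec : (1 - δ') * (3 * n + (2 * n + 4) * (1 - δ)) ≤ 3 * (n + 1) * (1 - δ)) :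
    PinchS (n + 1) δ' := by
  intro P hP s' hs' hp
  have hy : 0 < 1 - δ := by linarith
  have hy' : 0 ≤ 1 - δ' := by linarith
  set s : ℝ := s' * (1 - δ') / (1 - δ) with hsdef
  have hs : 0 ≤ s := by positivity
  have hsy : s * (1 - δ) = s' * (1 - δ') := by
    rw [hsdef]
    field_simp
  have hlt : s < s' := by
    rw [hsdef, div_lt_iff₀ hy]
    exact mul_lt_mul_of_pos_left (by linarith) hs'
  set t : ℝ := s' - s with htdef
  have ht : 0 < t := by linarith
  have hst : s * ((2 * n + 1) - (2 * n + 4) * δ) ≤ 3 * (n + 1) * t := by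
    have h2 : s * (3 * n + (2 * n + 4) * (1 - δ)) ≤ 3 * (n + 1) * s' := by
      rw [hsdef, div_mul_eq_mul_div, div_le_iff₀ hy]
      calc s' * (1 - δ') * (3 * n + (2 * n + 4) * (1 - δ))
          = s' * ((1 - δ') * (3 * n + (2 * n + 4) * (1 - δ))) := by ring
        _ ≤ s' * (3 * (n + 1) * (1 - δ)) := mul_le_mul_of_nonneg_left hrec hs'.le
        _ = 3 * (n + 1) * s' * (1 - δ) := by ring
    rw [htdef]
    linarith
  have hstep := step_lower hn H hs ht.le hst (fun i j k l => P i j k l - t * idA (2 * (n + 1)) i j k l)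
    (algCurv_sub_idA hP t) (by
      intro x y
      rw [ev_sub_idA]
      obtain ⟨hl, hu⟩ := hp x y
      have ha := area2_nonneg x y
      refine ⟨?_, ?_⟩
      · have : δ * s = δ' * s' - t := by
          rw [htdef]
          linarith
        rw [this]
        linarith
      · have : s = s' - t := by rw [htdef]; ring
        rw [this]
        linarith)
  have hfun : (fun i j k l => t * idA (2 * (n + 1)) i j k l +
      (P i j k l - t * idA (2 * (n + 1)) i j k l)) = P := by
    funext i j k l
    ring
  rw [hfun] at hstep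
  exact lt_of_lt_of_le (mul_pos (pow_pos ht _) (gb_idA_pos _)) hstep

theorem pinch3_strict : PinchS 3 (1 / 5) := by
  intro P hP s hpos hp
  have hQ : HopfSix.IsAlgCurv (fun i j k l => - P i j k l) := by
    refine ⟨?_, ?_, ?_⟩
    · intro i j k l
      show - P i j k l = - (- P j i k l)
      rw [hP.skew]
    · intro i j k l
      show - P i j k l = - P k l i j
      rw [hP.pair]
    · intro i j k l
      show - P i j k l + - P j k i l + - P k i j l = 0
      have := hP.bianchi i j k l
      linarith
  have hk : 0 < s / 5 := by positivity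
  have h := H80Hopf.gaussBonnet_neg_of_pinched (fun i j k l => - P i j k l) hQ (s / 5) hk (by
    intro x y hx hy hxy
    have hx' : ∑ i, x i ^ 2 = 1 := by
      rw [← hx]
      exact Finset.sum_congr rfl fun i _ => by ring
    have hy' : ∑ i, y i ^ 2 = 1 := by
      rw [← hy]
      exact Finset.sum_congr rfl fun i _ => by ring
    have ha : area2 x y = 1 := by
      unfold area2
      rw [hx', hy', hxy]
      norm_num
    have hs' : H80Hopf.sec (fun i j k l => - P i j k l) x y = - ev P x y x y := by
      rw [ev_eq_sec]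
      unfold H80Hopf.sec
      simp only [neg_mul, Finset.sum_neg_distrib]
    obtain ⟨h1, h2⟩ := hp x y
    rw [ha] at h1 h2
    rw [hs']
    constructor <;> linarith)
  have hg : HopfSix.gaussBonnet (fun i j k l => - P i j k l) = - gaussBonnet 3 P := by
    rw [← gb_three, gb_neg]
    norm_num
  rw [hg] at h
  linarith

/-- Strict pinching in all dimensions `≥ 6`. -/
theorem pinch_strict (n : ℕ) (hn : 3 ≤ n) : PinchS n (dlc (27 / 4) n) := by
  rcases Nat.eq_or_lt_of_le hn with h3 | h4
  · subst h3
    have h5 : dlc (27 / 4) (3 : ℕ) = 1 / 5 := by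
      unfold dlc
      norm_num
    rw [h5]
    exact pinch3_strict
  · obtain ⟨m, rfl⟩ : ∃ m, n = m + 1 := ⟨n - 1, by omega⟩
    have hm : 3 ≤ m := by omega
    have H := pinch_all6 m hm
    have hm3 : (3 : ℝ) ≤ m := by exact_mod_cast hm
    set D : ℝ := (m : ℝ) ^ 2 + 3 * m - 27 / 4 with hD
    have hDpos : 0 < D := by
      rw [hD]
      nlinarith
    have hD' : ((m + 1 : ℕ) : ℝ) ^ 2 + 3 * ((m + 1 : ℕ) : ℝ) - 27 / 4 = D + (2 * m + 4) := by
      rw [hD]
      push_cast
      ring
    have hD'pos : 0 < D + (2 * m + 4) := by linarith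
    have hy : 1 - dlc (27 / 4) m = 3 * m / D := by
      unfold dlc
      ring
    have hy' : 1 - dlc (27 / 4) (m + 1 : ℕ) = 3 * (m + 1) / (D + (2 * m + 4)) := by
      unfold dlc
      rw [hD']
      push_cast
      ring
    have hmono : dlc (27 / 4) m < dlc (27 / 4) (m + 1 : ℕ) := by
      have h1 : 1 - dlc (27 / 4) (m + 1 : ℕ) < 1 - dlc (27 / 4) m := by
        rw [hy, hy', div_lt_div_iff₀ hD'pos hDpos]
        have : D < m * (2 * m + 4) := by
          rw [hD]
          nlinarith
        nlinarith
      linarith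
    refine PinchS.succ (by omega) H ?_ hmono ?_ ?_
    · have : 0 < 1 - dlc (27 / 4) m := by
        rw [hy]
        positivity
      linarith
    · have : 0 ≤ 1 - dlc (27 / 4) (m + 1 : ℕ) := by
        rw [hy']
        positivity
      linarith
    · rw [hy, hy']
      have h2 : 3 * (m : ℝ) + (2 * m + 4) * (3 * m / D) = 3 * m * (D + (2 * m + 4)) / D := by
        field_simp
      rw [h2]
      apply le_of_eq
      field_simp

end Pool.Agent.H69Hopf
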